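import Pool.Agent.N970.P21G.PC

/-!
# CP3: the pairs with a common isotropic line modulo `3` (project P21G)
-/

set_option autoImplicit false

namespace Pool.Agent.N970.P21G

open Finset
open Pool.Agent.Z700 (hh fac)
open Pool.Agent.N969.P15 (tw tb Ev V3)
open Pool.Agent.N969.RQ (c7 lcp ip7 vec7)
open Pool.Agent.N877.P21G
open Pool.Agent.N970.RQ (pc7' mem_vv vec7_eq ip7_eq)

/-! ### the local factors -/

theorem fact_nine {D l : ℕ} (hD : D ≠ 0) (hl : l.Prime) (h3 : l ≠ 3) :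
    (9 * D).factorization l = D.factorization l := by
  rw [Nat.factorization_mul (by norm_num) hD, Finsupp.add_apply,
    Nat.factorization_eq_zero_of_not_dvd, zero_add]
  intro h
  have h9 : l ∣ 3 ^ 2 := by norm_num; exact h
  exact h3 ((Nat.prime_dvd_prime_iff_eq hl Nat.prime_three).1 (hl.dvd_of_dvd_pow h9))

theorem jac_nine {l : ℕ} (hl : l.Prime) (h3 : l ≠ 3) (z : ℤ) :
    jacobiSym (9 * z) l = jacobiSym z l := by
  have e : (9 * z : ℤ) = z * ((3 : ℕ) : ℤ) ^ 2 := by push_cast; ring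
  rw [e]
  apply Pool.Agent.Y155.Z7.J_sq l hl
  intro h
  exact h3 ((Nat.prime_dvd_prime_iff_eq hl Nat.prime_three).1 h)

theorem hh_nine {n D l : ℕ} (hD : D ≠ 0) (hl : l.Prime) (h3 : l ≠ 3) :
    hh n (9 * D) l = hh n D l := by
  unfold hh
  rw [fact_nine hD hl h3]
  have e : 9 * D / l ^ D.factorization l = 9 * (D / l ^ D.factorization l) :=
    Nat.mul_div_assoc 9 (Nat.ordProj_dvd D l)
  rw [e]
  have e1 : -((9 * (D / l ^ D.factorization l) : ℕ) : ℤ) =
      9 * (-((D / l ^ D.factorization l : ℕ) : ℤ)) := by push_cast; ring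
  have e2 : -((n / l * (9 * (D / l ^ D.factorization l)) : ℕ) : ℤ) =
      9 * (-((n / l * (D / l ^ D.factorization l) : ℕ) : ℤ)) := by push_cast; ring
  rw [e1, e2, jac_nine hl h3, jac_nine hl h3]

theorem fac_nine {n D l : ℕ} (hD : D ≠ 0) (hl : l.Prime) (h3 : l ≠ 3) :
    fac n (9 * D) l = fac n D l := by
  unfold fac
  rw [hh_nine hD hl h3, fact_nine hD hl h3]

/-- the product away from `3` -/
def R3 (n D : ℕ) : ℤ := ∏ l ∈ ((D.primeFactors.erase 2).erase 3).erase 7, fac n D l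

theorem pf_nine {D : ℕ} (hD : D ≠ 0) : (9 * D).primeFactors = insert 3 D.primeFactors := by
  rw [Nat.primeFactors_mul (by norm_num) hD]
  have : Nat.primeFactors 9 = {3} := by
    rw [show 9 = 3 ^ 2 by norm_num]
    exact Nat.primeFactors_prime_pow (by norm_num) Nat.prime_three
  rw [this]
  rfl

theorem R3_nine {n D : ℕ} (hD : D ≠ 0) : R3 n (9 * D) = R3 n D := by
  unfold R3
  have e : (((9 * D).primeFactors.erase 2).erase 3).erase 7 =
      ((D.primeFactors.erase 2).erase 3).erase 7 := by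
    rw [pf_nine hD]
    ext l
    simp only [mem_erase, mem_insert]
    tauto
  rw [e]
  refine prod_congr rfl fun l hl => ?_
  simp only [mem_erase] at hl
  exact fac_nine hD (Nat.prime_of_mem_primeFactors hl.2.2.2) hl.2.1

theorem prod_three {n D : ℕ} (hn : n % 3 = 2) (hD : D ≠ 0) :
    ∏ l ∈ (D.primeFactors.erase 2).erase 7, fac n D l = (D.factorization 3 + 1 : ℕ) * R3 n D := by
  by_cases h : 3 ∣ D
  · have h3 : 3 ∈ (D.primeFactors.erase 2).erase 7 := by
      rw [mem_erase, mem_erase, Nat.mem_primeFactors]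
      exact ⟨by norm_num, by norm_num, Nat.prime_three, h, hD⟩
    rw [← mul_prod_erase _ _ h3]
    have e : ((D.primeFactors.erase 2).erase 7).erase 3 =
        ((D.primeFactors.erase 2).erase 3).erase 7 := erase_right_comm
    rw [e]
    unfold R3
    congr 1
    unfold fac
    rw [if_neg (by omega)]
    have hj : jacobiSym (-(n : ℤ)) 3 = 1 := by
      rw [jacobiSym.mod_left]
      have : (-(n : ℤ)) % ((3 : ℕ) : ℤ) = 1 := by push_cast; omega
      rw [this, jacobiSym.one_left]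
    rw [hj]
    simp
  · rw [Nat.factorization_eq_zero_of_not_dvd h]
    unfold R3
    have e : (D.primeFactors.erase 2).erase 3 = D.primeFactors.erase 2 := by
      apply erase_eq_of_notMem
      rw [mem_erase, Nat.mem_primeFactors]
      exact fun h' => h h'.2.2.1
    rw [e]
    simp

theorem L7_eq {n D : ℕ} {b : ℤ} (hn : n % 3 = 2) (hD : D ≠ 0) :
    L7 n b D = if Odd (D.factorization 7) then
      (D.factorization 3 + 1 : ℕ) * (dt n b D * R3 n D) else 0 := by
  unfold L7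
  rw [prod_three hn hD]
  split_ifs <;> ring

theorem L37_eq {n D : ℕ} {b : ℤ} : L37 n b D = if Odd (D.factorization 7) then
      (D.factorization 3 : ℤ) * (dt n b D * R3 n D) else 0 := rfl

/-! ### the pair count for both parities -/

theorem I7_nd {n : ℕ} (h : I7 n) : ¬ 7 ∣ n := by
  unfold I7 at h
  omega

theorem pc7g {n1 n2 D : ℕ} {b : ℤ} (hF : Fn n1) (h2 : 2 ∣ n1 → 4 ∣ n2) (h7 : I7 n1) (hD : 0 < D)
    (hDD : (D : ℤ) = n1 * n2 - b ^ 2) : (c7 n1 b n2 : ℤ) = 4 * L7 n1 b D := by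
  rcases hF with ⟨hs, h3⟩ | hE
  · rw [pc7' hs h3 (I7_nd h7) hD hDD]
    unfold lcp L7 dt
    rw [if_neg (show ¬ 2 ∣ n1 by omega)]
  · have h4 : 2 ∣ n1 := by
      obtain ⟨m, rfl, -⟩ := hE
      exact ⟨2 * m, by ring⟩
    exact t_PC7E n1 n2 b D hE h7 (h2 h4) hD hDD

/-! ### the bijection -/

theorem mem7 {n : ℕ} {v : V3} : v ∈ vec7 (n : ℤ) ↔ ip7 v v = n := by
  rw [vec7_eq, mem_vv, ip7_eq]

theorem ip7_comb (c : ℤ) (v x : V3) : ip7 (fun i => c * v i + 3 * x i)
    (fun i => c * v i + 3 * x i) = c ^ 2 * ip7 v v + 6 * c * ip7 v x + 9 * ip7 x x := by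
  unfold ip7
  ring

theorem ip7_comb1 (c : ℤ) (v x : V3) : ip7 v (fun i => c * v i + 3 * x i) =
    c * ip7 v v + 3 * ip7 v x := by
  unfold ip7
  ring

/-- the pairs proportional modulo `3` -/
theorem cp3_eq {n1 n2 m2 : ℕ} {b c b' : ℤ} (hn2 : n2 % 3 = 2)
    (hc : c = 1 ∨ c = -1) (hbc : (b + c) % 3 = 0) (hb : b = c * n1 + 3 * b')
    (hm : (n2 : ℤ) = -n1 + 2 * c * b + 9 * m2) :
    cp3 n1 b n2 = c7 n1 b' m2 := by
  have hcc : c ^ 2 = 1 := by rcases hc with rfl | rfl <;> norm_num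
  unfold cp3 c7
  symm
  refine card_bij (fun q _ => (q.1, fun i => c * q.1 i + 3 * q.2 i)) ?_ ?_ ?_
  · rintro ⟨v, x⟩ hq
    rw [mem_filter, mem_product, mem7, mem7] at hq
    obtain ⟨⟨hv, hx⟩, hvx⟩ := hq
    simp only at hv hx hvx
    rw [mem_filter, mem_product, mem7, mem7]
    refine ⟨⟨hv, ?_⟩, ?_, fun i => ?_⟩
    · show ip7 (fun i => c * v i + 3 * x i) (fun i => c * v i + 3 * x i) = n2
      rw [ip7_comb, hv, hx, hvx, hm, hb]
      linear_combination (n1 : ℤ) * hcc - 2 * n1 * hcc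
    · show ip7 v (fun i => c * v i + 3 * x i) = b
      rw [ip7_comb1, hv, hvx, hb]
    · show (3 : ℤ) ∣ n2 * v i - b * (c * v i + 3 * x i)
      obtain ⟨k, hk⟩ : ∃ k : ℤ, (n2 : ℤ) = 3 * k - 1 := ⟨((n2 : ℤ) + 1) / 3, by omega⟩
      obtain ⟨j, hj⟩ : ∃ j : ℤ, b = 3 * j - c := ⟨(b + c) / 3, by omega⟩
      refine ⟨(k - j * c) * v i - b * x i, ?_⟩
      rw [hk]
      linear_combination (-(c * v i)) * hj + v i * hcc
  · rintro ⟨v, x⟩ _ ⟨v', x'⟩ _ h
    simp only [Prod.mk.injEq] at h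
    obtain ⟨rfl, h⟩ := h
    have : x = x' := by
      funext i
      have h' : c * v i + 3 * x i = c * v i + 3 * x' i := congrFun h i
      omega
    rw [this]
  · rintro ⟨v, w⟩ hq
    rw [mem_filter, mem_product, mem7, mem7] at hq
    obtain ⟨⟨hv, hw⟩, hvw, h3⟩ := hq
    simp only at hv hw hvw h3
    have h4 : ∀ i, ∃ x : ℤ, w i = c * v i + 3 * x := by
      intro i
      obtain ⟨r, hr⟩ := h3 i
      obtain ⟨k, hk⟩ : ∃ k : ℤ, (n2 : ℤ) = 3 * k - 1 := ⟨((n2 : ℤ) + 1) / 3, by omega⟩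
      obtain ⟨j, hj⟩ : ∃ j : ℤ, b = 3 * j - c := ⟨(b + c) / 3, by omega⟩
      refine ⟨c * (r - k * v i + j * w i), ?_⟩
      rw [hk, hj] at hr
      linear_combination c * hr - w i * hcc
    choose x hx using h4
    have hwx : w = fun i => c * v i + 3 * x i := funext hx
    refine ⟨(v, x), ?_, ?_⟩
    · rw [mem_filter, mem_product, mem7, mem7]
      have hvx : ip7 v x = b' := by
        rw [hwx, ip7_comb1, hv, hb] at hvw
        linarith
      refine ⟨⟨hv, ?_⟩, hvx⟩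
      rw [hwx, ip7_comb, hv, hvx] at hw
      have : (9 : ℤ) * ip7 x x = 9 * m2 := by
        rw [hm, hb] at hw
        linear_combination hw - (n1 : ℤ) * hcc + 2 * n1 * hcc
      have h9 : ip7 x x = m2 := by linarith
      exact h9
    · rw [hwx]

theorem cp3_le {n1 n2 : ℕ} {b : ℤ} : cp3 n1 b n2 ≤ c7 n1 b n2 := by
  unfold cp3 c7
  apply card_le_card
  intro q hq
  rw [mem_filter] at hq ⊢
  exact ⟨hq.1, hq.2.1⟩

/-- if there is a proportional pair then `9 ∣ D` -/
theorem cp3_zero {n1 n2 D : ℕ} {b c b' : ℤ} (hn2 : n2 % 3 = 2)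
    (hc : c = 1 ∨ c = -1) (hbc : (b + c) % 3 = 0) (hb : b = c * n1 + 3 * b')
    (hDD : (D : ℤ) = n1 * n2 - b ^ 2) (h9 : ¬ 9 ∣ D) : cp3 n1 b n2 = 0 := by
  have hcc : c ^ 2 = 1 := by rcases hc with rfl | rfl <;> norm_num
  unfold cp3
  rw [card_eq_zero, filter_eq_empty_iff]
  rintro ⟨v, w⟩ hq ⟨hvw, h3⟩
  rw [mem_product, mem7, mem7] at hq
  obtain ⟨hv, hw⟩ := hq
  simp only at hv hw hvw h3
  have h4 : ∀ i, ∃ x : ℤ, w i = c * v i + 3 * x := by
    intro i
    obtain ⟨r, hr⟩ := h3 i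
    obtain ⟨k, hk⟩ : ∃ k : ℤ, (n2 : ℤ) = 3 * k - 1 := ⟨((n2 : ℤ) + 1) / 3, by omega⟩
    obtain ⟨j, hj⟩ : ∃ j : ℤ, b = 3 * j - c := ⟨(b + c) / 3, by omega⟩
    refine ⟨c * (r - k * v i + j * w i), ?_⟩
    rw [hk, hj] at hr
    linear_combination c * hr - w i * hcc
  choose x hx using h4
  have hwx : w = fun i => c * v i + 3 * x i := funext hx
  have hvx : ip7 v x = b' := by
    rw [hwx, ip7_comb1, hv, hb] at hvw
    linarith
  rw [hwx, ip7_comb, hv, hvx] at hw
  apply h9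
  have : (9 : ℤ) ∣ (D : ℤ) := by
    refine ⟨n1 * ip7 x x - b' ^ 2, ?_⟩
    rw [hDD, ← hw, hb]
    linear_combination (n1 : ℤ) ^ 2 * hcc - (n1 : ℤ) ^ 2 * hcc
  exact_mod_cast this

theorem dt_nine {n1 D : ℕ} {b c b' : ℤ} (hF : Fn n1) (hD : D ≠ 0)
    (hb : b = c * n1 + 3 * b') : dt n1 b (9 * D) = dt n1 b' D := by
  unfold dt
  by_cases h : 2 ∣ n1
  · rw [if_pos h, if_pos h]
    have h4 : 4 ∣ n1 := by
      rcases hF with ⟨-, h3⟩ | ⟨m, rfl, -⟩
      · omega
      · exact ⟨m, rfl⟩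
    obtain ⟨k, rfl⟩ := h4
    have e : b = 4 * (c * k) + 3 * b' := by rw [hb]; push_cast; ring
    generalize c * k = z at e
    unfold tb
    split_ifs <;> omega
  · rw [if_neg h, if_neg h]
    unfold tw
    rw [fact_nine hD Nat.prime_two (by norm_num)]

/-- **CP3** -/
theorem t_CP3 : S_CP3 := by
  intro n1 n2 b D hF h2 hn1 h7 hn2 hD h3 hDD
  have hD0 : D ≠ 0 := hD.ne'
  have hcnt := pc7g hF h2 h7 hD hDD
  have hb3 : b % 3 = 1 ∨ b % 3 = 2 := by
    have hb0 : ¬ b % 3 = 0 := by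
      intro h
      obtain ⟨k, hk⟩ : ∃ k, b = 3 * k := ⟨b / 3, by omega⟩
      obtain ⟨d, rfl⟩ := h3
      have h5 : ((n1 * n2 : ℕ) : ℤ) = 3 * (d + 3 * k ^ 2) := by
        rw [hk] at hDD
        push_cast at hDD ⊢
        linear_combination -hDD
      have h6 : (n1 * n2) % 3 = 1 := by rw [Nat.mul_mod, hn1, hn2]
      generalize (d : ℤ) + 3 * k ^ 2 = z at h5
      omega
    omega
  obtain ⟨c, hc, hbc⟩ : ∃ c : ℤ, (c = 1 ∨ c = -1) ∧ (b + c) % 3 = 0 := by
    rcases hb3 with h | h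
    · exact ⟨-1, Or.inr rfl, by omega⟩
    · exact ⟨1, Or.inl rfl, by omega⟩
  have hcc : c ^ 2 = 1 := by rcases hc with rfl | rfl <;> norm_num
  obtain ⟨b', hb⟩ : ∃ b' : ℤ, b = c * n1 + 3 * b' := by
    have : (3 : ℤ) ∣ b - c * n1 := by
      obtain ⟨k, hk⟩ : ∃ k : ℤ, (n1 : ℤ) = 3 * k - 1 := ⟨((n1 : ℤ) + 1) / 3, by omega⟩
      obtain ⟨j, hj⟩ : ∃ j : ℤ, b = 3 * j - c := ⟨(b + c) / 3, by omega⟩
      exact ⟨j - c * k, by rw [hk, hj]; ring⟩
    obtain ⟨b', h⟩ := this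
    exact ⟨b', by linarith⟩
  rw [hcnt, L37_eq, L7_eq hn1 hD0]
  by_cases h9 : 9 ∣ D
  · obtain ⟨D', rfl⟩ := h9
    have hD'0 : D' ≠ 0 := by rintro rfl; exact hD0 rfl
    have hD'p : 0 < D' := Nat.pos_of_ne_zero hD'0
    -- the norm of the third vector
    have hk : (9 : ℤ) ∣ n2 + n1 - 2 * c * b := by
      have h1 : (9 : ℤ) ∣ n1 * (n2 + n1 - 2 * c * b) := by
        refine ⟨D' + b' ^ 2, ?_⟩
        push_cast at hDD
        rw [hb] at hDD ⊢
        linear_combination -hDD - 2 * (n1 : ℤ) ^ 2 * hcc + (n1 : ℤ) ^ 2 * hcc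
      have h2' : IsCoprime (9 : ℤ) (n1 : ℤ) := by
        have : Nat.Coprime 9 n1 := by
          have h3' : Nat.Coprime 3 n1 :=
            (Nat.Prime.coprime_iff_not_dvd Nat.prime_three).2 (by omega)
          have := Nat.Coprime.pow_left 2 h3'
          exact this
        exact Nat.isCoprime_iff_coprime.2 this
      exact h2'.dvd_of_dvd_mul_left h1
    obtain ⟨m2, hm2⟩ := hk
    have hDm : (n1 : ℤ) * m2 = D' + b' ^ 2 := by
      apply mul_left_cancel₀ (by norm_num : (9 : ℤ) ≠ 0)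
      have h1 : (n1 : ℤ) * (n2 + n1 - 2 * c * b) = 9 * (D' + b' ^ 2) := by
        push_cast at hDD
        rw [hb] at hDD ⊢
        linear_combination -hDD - 2 * (n1 : ℤ) ^ 2 * hcc + (n1 : ℤ) ^ 2 * hcc
      rw [hm2] at h1
      linear_combination h1
    have hm0 : 0 < m2 := by
      have hn0 : (0 : ℤ) < n1 := by
        have : 0 < n1 := by omega
        exact_mod_cast this
      have h1 : (0 : ℤ) < n1 * m2 := by
        rw [hDm]
        have : (0 : ℤ) < D' := by exact_mod_cast hD'p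
        positivity
      exact (pos_iff_pos_of_mul_pos h1).1 hn0
    obtain ⟨m, rfl⟩ := Int.eq_ofNat_of_zero_le hm0.le
    have hcp : cp3 n1 b n2 = c7 n1 b' m := cp3_eq hn2 hc hbc hb (by linarith)
    have hR : R3 n1 (9 * D') = R3 n1 D' := R3_nine hD'0
    have hdt := dt_nine (c := c) hF hD'0 hb
    by_cases hpar : 2 ∣ n1 ∧ ¬ 2 ∣ b
    · -- no pairs
      have ht : dt n1 b (9 * D') = 0 := by
        unfold dt
        rw [if_pos hpar.1]
        unfold tb
        have := hpar.2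
        split_ifs <;> omega
      have hz : (c7 n1 b n2 : ℤ) = 0 := by
        rw [hcnt, L7_eq hn1 hD0, ht]
        simp
      have hz' : cp3 n1 b n2 = 0 := by
        have h1 : c7 n1 b n2 = 0 := by exact_mod_cast hz
        exact Nat.le_zero.1 (h1 ▸ cp3_le)
      rw [hz', ht]
      simp
    · have h4 : 2 ∣ n1 → 4 ∣ m := by
        intro h
        have h2b : (2 : ℤ) ∣ b := by
          by_contra hc'
          exact hpar ⟨h, hc'⟩
        have h4n : 4 ∣ n1 := by
          rcases hF with ⟨-, h3⟩ | ⟨k, rfl, -⟩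
          · omega
          · exact ⟨k, rfl⟩
        obtain ⟨k1, hk1⟩ := h4n
        obtain ⟨k2, hk2⟩ := h2 h
        obtain ⟨k3, rfl⟩ := h2b
        rw [hk1, hk2] at hm2
        push_cast at hm2
        have e : 2 * c * (2 * k3) = 4 * (c * k3) := by ring
        rw [e] at hm2
        generalize c * k3 = z at hm2
        omega
      have hc2 := pc7g (b := b') hF h4 h7 hD'p (by rw [hDm]; ring)
      rw [hcp, hc2, L7_eq hn1 hD'0, ← hdt, ← hR,
        fact_nine hD'0 (by norm_num : Nat.Prime 7) (by norm_num)]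
      have hv3 : (9 * D').factorization 3 = D'.factorization 3 + 2 := by
        rw [Nat.factorization_mul (by norm_num) hD'0, Finsupp.add_apply,
          show 9 = 3 ^ 2 by norm_num, Nat.Prime.factorization_pow Nat.prime_three,
          Finsupp.single_eq_same, add_comm]
      rw [hv3]
      split_ifs
      · push_cast
        ring
      · ring
  · rw [cp3_zero hn2 hc hbc hb hDD h9]
    have hv3 : D.factorization 3 = 1 := by
      have h1 : 1 ≤ D.factorization 3 :=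
        (Nat.Prime.dvd_iff_one_le_factorization Nat.prime_three hD0).1 h3
      have h2' : ¬ 2 ≤ D.factorization 3 := by
        intro h
        apply h9
        have := (Nat.Prime.pow_dvd_iff_le_factorization Nat.prime_three hD0).2 h
        exact this
      omega
    rw [hv3]
    split_ifs
    · push_cast
      ring
    · simp

end Pool.Agent.N970.P21G
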