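import Pool.Agent.N970.PCE.Ram
import Pool.Agent.N970.P17.PCR
import Pool.Agent.N970.RQ.PC7
import Pool.Agent.N877.P21G.Defs

/-!
# The pair counts of the lattice ramified at `7` (project P21G): PC7E, PC7r, PC7rE
-/

set_option autoImplicit false

namespace Pool.Agent.N970.P21G

open Finset Matrix
open Pool.Agent.Z700 (hh fac)
open Pool.Agent.N816.P17 (bi)
open Pool.Agent.N970.PC
open Pool.Agent.N970.PCE
open Pool.Agent.N970.RQ hiding L7
open Pool.Agent.N969.P15 (tw tb Ev)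
open Pool.Agent.N969.RQ (c7 lcp)
open Pool.Agent.N877.P21G

/-- the pair count for even norms -/
theorem cntE7 {m n2 Q : ℕ} {b : ℤ} (hs : Squarefree m) (hm : m % 4 = 1 ∨ m % 4 = 2)
    (hQ : 0 < Q) (hDD : ((4 * 7 * Q : ℕ) : ℤ) = (4 * m : ℕ) * n2 - b ^ 2) :
    Nat.card (Pairs G7 (4 * m) n2 b) = 4 * (XE 7 (4 * m) b Q).card := by
  have hm1 : 0 < m := Nat.pos_of_ne_zero hs.ne_zero
  have hDD' : 4 * ((7 : ℕ) : ℤ) * (Q : ℤ) = (4 * m : ℕ) * n2 - b ^ 2 := by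
    rw [← hDD]; push_cast; ring
  rw [t_CNTE LE7 (by norm_num) (by omega) (prim_of_four LE7 hs hm) hQ hDD']
  exact card_frE7 (4 * m) b Q

theorem J7 {m : ℕ} (h : I7 (4 * m)) : ¬ 7 ∣ m ∧ jacobiSym (-(m : ℤ)) 7 = -1 := by
  unfold I7 at h
  have h1 : m % 7 = 1 ∨ m % 7 = 2 ∨ m % 7 = 4 := by omega
  refine ⟨by omega, ?_⟩
  rw [jacobiSym.mod_left]
  have h4 : (-(m : ℤ)) % ((7 : ℕ) : ℤ) = 6 ∨ (-(m : ℤ)) % ((7 : ℕ) : ℤ) = 5 ∨
    (-(m : ℤ)) % ((7 : ℕ) : ℤ) = 3 := by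
    push_cast
    omega
  rcases h4 with h4 | h4 | h4 <;> rw [h4] <;> norm_num

theorem pc7E {m n2 D : ℕ} {b : ℤ} (hs : Squarefree m) (hm : m % 4 = 1 ∨ m % 4 = 2)
    (h7 : I7 (4 * m)) (h4 : 4 ∣ n2) (hD : 0 < D)
    (hDD : (D : ℤ) = (4 * m : ℕ) * n2 - b ^ 2) :
    (c7 (4 * m : ℕ) b n2 : ℤ) = 4 * L7 (4 * m) b D := by
  have p7 : Nat.Prime 7 := by norm_num
  obtain ⟨h5, hJ⟩ := J7 h7
  rw [c7_eq, ← card_pairs7]
  unfold L7 Pool.Agent.N877.P21G.dt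
  rw [if_pos (show 2 ∣ 4 * m from ⟨2 * m, by ring⟩)]
  by_cases h20 : 4 * 7 ∣ D
  · obtain ⟨Q, rfl⟩ := h20
    have hQ : 0 < Q := by omega
    have hDD' : 4 * ((7 : ℕ) : ℤ) * (Q : ℤ) = (4 * m : ℕ) * n2 - b ^ 2 := by
      rw [← hDD]; push_cast; ring
    have hX := card_XE p7 (by norm_num) hs hm hQ h4 hDD' (Or.inl ⟨h5, hJ⟩)
    rw [cntE7 hs hm hQ hDD, Nat.cast_mul, hX, S_at_c0 p7 (by norm_num) hs h5 hJ]
    have hv5 := fact_c0 p7 (by norm_num) hQ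
    rw [hv5]
    rcases Nat.even_or_odd (Q.factorization 7) with h | h
    · rw [if_pos h, if_pos h.add_one, one_mul]
      push_cast
      rfl
    · rw [if_neg (by rw [Nat.not_even_iff_odd]; exact h),
        if_neg (by rw [Nat.not_odd_iff_even]; exact h.add_one), zero_mul]
      norm_num
  · rw [no_pairs Pool.Agent.N970.RQ.L7 hDD h20]
    split_ifs with h
    · have h5D : 7 ∣ D := by
        by_contra hc
        rw [Nat.factorization_eq_zero_of_not_dvd hc] at h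
        exact absurd h (by decide)
      have h4D : ¬ 4 ∣ D := by
        intro h4
        exact h20 (Nat.Coprime.mul_dvd_of_dvd_of_dvd (by norm_num : Nat.Coprime 4 7) h4 h5D)
      rw [Pool.Agent.N970.P17.tb_zero hDD h4D]
      simp
    · simp

/-- **PC7E** -/
theorem t_PC7E : S_PC7E := by
  intro n1 n2 b D hEv h7 h4 hD hDD
  obtain ⟨m, rfl, hs, hm⟩ := hEv
  exact pc7E hs hm h7 h4 hD hDD

/-- **PC7r** -/
theorem t_PC7r : S_PC7r := by
  intro n1 n2 b D hs h3 h7 hD hDD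
  have p7 : Nat.Prime 7 := by norm_num
  have h25 : ¬ 7 * 7 ∣ n1 := fun h => p7.one_lt.ne' (Nat.isUnit_iff.1 (hs 7 h))
  rw [c7_eq, ← card_pairs7, pcr7 hs h3 h7 hD hDD]
  unfold L7r Pool.Agent.N877.P21G.dt R7
  rw [if_neg (show ¬ 2 ∣ n1 by omega)]
  rcases hh_pm p7 h25 h7 hD with hp | hp
  · rw [hp]
    simp
  · rw [hp]
    by_cases h : 7 ∣ D
    · rw [if_pos ⟨h, rfl⟩, if_pos h]
      ring
    · rw [if_neg (fun h' => h h'.1), if_neg h]
      ring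

/-- **PC7rE** -/
theorem t_PC7rE : S_PC7rE := by
  intro n1 n2 b D hEv h7 h4 hD hDD
  obtain ⟨m, rfl, hs, hm⟩ := hEv
  have p7 : Nat.Prime 7 := by norm_num
  have h5m : 7 ∣ m := by
    rcases p7.dvd_mul.1 h7 with h | h
    · exact absurd h (by norm_num)
    · exact h
  have h25m : ¬ 7 * 7 ∣ m := fun h => p7.one_lt.ne' (Nat.isUnit_iff.1 (hs 7 h))
  have h25 : ¬ 7 * 7 ∣ 4 * m := fun h =>
    h25m ((by norm_num : Nat.Coprime (7 * 7) 4).dvd_of_dvd_mul_left h)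
  have hm1 : 0 < m := Nat.pos_of_ne_zero hs.ne_zero
  rw [c7_eq, ← card_pairs7]
  unfold L7r Pool.Agent.N877.P21G.dt
  rw [if_pos (show 2 ∣ 4 * m from ⟨2 * m, by ring⟩)]
  by_cases h20 : 4 * 7 ∣ D
  · obtain ⟨Q, rfl⟩ := h20
    have hQ : 0 < Q := by omega
    have h5D : 7 ∣ 4 * 7 * Q := ⟨4 * Q, by ring⟩
    rcases hh_pm p7 h25 h7 hD with hp | hp
    · have z1 : Nat.card (Pairs G7 (4 * m) n2 b) = 0 := by
        have : IsEmpty (Pairs G7 (4 * m) n2 b) := ⟨fun q => by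
          have h := hh_ram Pool.Agent.N970.RQ.L7 LR7 (by norm_num) (by norm_num) h25 h7 hD hDD
            q.2.1 q.2.2.1 q.2.2.2
          rw [hp] at h
          norm_num at h⟩
        exact Nat.card_of_isEmpty
      rw [z1, hp]
      simp
    · have hDD' : 4 * ((7 : ℕ) : ℤ) * (Q : ℤ) = (4 * m : ℕ) * n2 - b ^ 2 := by
        rw [← hDD]; push_cast; ring
      have hX := card_XER p7 (by norm_num) hs hm hQ h4 hDD' h5m hp
      rw [cntE7 hs hm hQ hDD, Nat.cast_mul, hX, if_pos h5D, hp,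
        Pool.Agent.Y155.Z7.S_ram m hm1 7 p7 h5m (by rw [pow_two]; exact h25m)]
      push_cast
      ring
  · rw [no_pairs Pool.Agent.N970.RQ.L7 hDD h20]
    split_ifs with h
    · have h4D : ¬ 4 ∣ D := by
        intro h4
        exact h20 (Nat.Coprime.mul_dvd_of_dvd_of_dvd (by norm_num : Nat.Coprime 4 7) h4 h)
      rw [Pool.Agent.N970.P17.tb_zero hDD h4D]
      simp
    · simp

end Pool.Agent.N970.P21G
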