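import Pool.Agent.N970.P21G.OrtA
import Pool.Agent.N971.P21G.X7

/-!
# ORT3, ORT21, ORTN
-/

set_option autoImplicit false

namespace Pool.Agent.N970.P21G

open Pool.Agent.N877.P21G

theorem t_ORT3 : S_ORT3 := s_ORT3 Pool.Agent.N971.P21G.X.t_X7

theorem t_ORT21 : S_ORT21 := s_ORT21 Pool.Agent.N971.P21G.X.t_X7

theorem t_ORTN : S_ORTN := s_ORTN Pool.Agent.N971.P21G.X.t_X7

end Pool.Agent.N970.P21G
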