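import Pool.Agent.N970.P21G.Reln

/-!
# HEN: the Hecke relations at `2` for the weighted vectors of the lattice ramified at `7`
-/

set_option autoImplicit false

namespace Pool.Agent.N970.P21G

open Finset
open Pool.Agent.N969.P15 (V3 ep2)
open Pool.Agent.N969.RQ (ip7 vec7 c7)
open Pool.Agent.N877.P21G (cn wn S_HEN)
open Pool.Agent.N970.RQ (oo L3)

/-! ### the similitudes of norm `2` -/

def m1 (v : V3) : V3 := ![-2 * v 2, -v 0 + 2 * v 1 + v 2, 2 * v 0]

def m2 (v : V3) : V3 := ![2 * v 0, -v 1 + 2 * v 2, -v 1 - 2 * v 2]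

def m3 (v : V3) : V3 := ![2 * v 0, -2 * v 1 - 2 * v 2, v 1 - v 2]

def d2 (v : V3) : V3 := ![2 * v 0, 2 * v 1, 2 * v 2]

/-- the image of `m1` -/
def q1 (u : V3) : Prop := u 0 % 2 = 0 ∧ u 2 % 2 = 0 ∧ (2 * u 1 + u 2 + u 0) % 4 = 0

/-- the image of `m2` -/
def q2 (u : V3) : Prop := u 0 % 2 = 0 ∧ (u 1 - u 2) % 4 = 0

/-- the image of `m3` -/
def q3 (u : V3) : Prop := u 0 % 2 = 0 ∧ u 1 % 2 = 0 ∧ (u 1 - 2 * u 2) % 4 = 0

/-- the image of the multiplication by `2` -/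
def qd (u : V3) : Prop := u 0 % 2 = 0 ∧ u 1 % 2 = 0 ∧ u 2 % 2 = 0

instance (u : V3) : Decidable (q1 u) := by unfold q1; infer_instance
instance (u : V3) : Decidable (q2 u) := by unfold q2; infer_instance
instance (u : V3) : Decidable (q3 u) := by unfold q3; infer_instance
instance (u : V3) : Decidable (qd u) := by unfold qd; infer_instance

theorem ip_m1 (v : V3) : ip7 (m1 v) (m1 v) = 4 * ip7 v v := by
  simp only [ip7, m1, Matrix.cons_val_zero, Matrix.cons_val_one, Matrix.cons_val]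
  ring

theorem ip_m2 (v : V3) : ip7 (m2 v) (m2 v) = 4 * ip7 v v := by
  simp only [ip7, m2, Matrix.cons_val_zero, Matrix.cons_val_one, Matrix.cons_val]
  ring

theorem ip_m3 (v : V3) : ip7 (m3 v) (m3 v) = 4 * ip7 v v := by
  simp only [ip7, m3, Matrix.cons_val_zero, Matrix.cons_val_one, Matrix.cons_val]
  ring

theorem ip_d2 (v : V3) : ip7 (d2 v) (d2 v) = 4 * ip7 v v := by
  simp only [ip7, d2, Matrix.cons_val_zero, Matrix.cons_val_one, Matrix.cons_val]
  ring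

theorem e3 {v w : V3} (h0 : v 0 = w 0) (h1 : v 1 = w 1) (h2 : v 2 = w 2) : v = w := by
  funext i
  fin_cases i
  · exact h0
  · exact h1
  · exact h2

/-- the general substitution -/
theorem sum_m {n : ℕ} {m : V3 → V3} {q : V3 → Prop} [DecidablePred q]
    (hip : ∀ v, ip7 (m v) (m v) = 4 * ip7 v v) (hq : ∀ v, q (m v))
    (hinj : ∀ v w, m v = m w → v = w) (hs : ∀ u, q u → ∃ v, m v = u) (f : V3 → ℤ) :
    ∑ v ∈ vec7 (n : ℤ), f (m v) = ∑ u ∈ vec7 ((4 * n : ℕ) : ℤ), (if q u then 1 else 0) * f u := by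
  have e : ∑ u ∈ vec7 ((4 * n : ℕ) : ℤ), (if q u then 1 else 0) * f u =
      ∑ u ∈ (vec7 ((4 * n : ℕ) : ℤ)).filter q, f u := by
    rw [sum_filter]
    refine sum_congr rfl fun u _ => ?_
    split_ifs
    · rw [one_mul]
    · rw [zero_mul]
  rw [e]
  refine sum_bij (fun v _ => m v) ?_ (fun v _ w _ h => hinj v w h) ?_ (fun _ _ => rfl)
  · intro v hv
    rw [mem7] at hv
    rw [mem_filter, mem7]
    refine ⟨?_, hq v⟩
    rw [hip, hv]
    push_cast
    ring
  · intro u hu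
    rw [mem_filter, mem7] at hu
    obtain ⟨v, rfl⟩ := hs u hu.2
    refine ⟨v, ?_, rfl⟩
    rw [mem7]
    have := hu.1
    rw [hip] at this
    push_cast at this
    linarith

theorem sum_m1 (n : ℕ) (f : V3 → ℤ) : ∑ v ∈ vec7 (n : ℤ), f (m1 v) =
    ∑ u ∈ vec7 ((4 * n : ℕ) : ℤ), (if q1 u then 1 else 0) * f u := by
  refine sum_m ip_m1 ?_ ?_ ?_ f
  · intro v
    refine ⟨?_, ?_, ?_⟩ <;> simp only [m1, Matrix.cons_val_zero, Matrix.cons_val_one,
      Matrix.cons_val] <;> omega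
  · intro v w h
    have h0 : -2 * v 2 = -2 * w 2 := congrFun h 0
    have h1 : -v 0 + 2 * v 1 + v 2 = -w 0 + 2 * w 1 + w 2 := congrFun h 1
    have h2 : 2 * v 0 = 2 * w 0 := congrFun h 2
    exact e3 (by omega) (by omega) (by omega)
  · rintro u ⟨a, b, c⟩
    refine ⟨![u 2 / 2, (u 1 + u 2 / 2 + u 0 / 2) / 2, -(u 0 / 2)], e3 ?_ ?_ ?_⟩ <;>
      simp only [m1, Matrix.cons_val_zero, Matrix.cons_val_one, Matrix.cons_val] <;> omega

theorem sum_m2 (n : ℕ) (f : V3 → ℤ) : ∑ v ∈ vec7 (n : ℤ), f (m2 v) =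
    ∑ u ∈ vec7 ((4 * n : ℕ) : ℤ), (if q2 u then 1 else 0) * f u := by
  refine sum_m ip_m2 ?_ ?_ ?_ f
  · intro v
    refine ⟨?_, ?_⟩ <;> simp only [m2, Matrix.cons_val_zero, Matrix.cons_val_one,
      Matrix.cons_val] <;> omega
  · intro v w h
    have h0 : 2 * v 0 = 2 * w 0 := congrFun h 0
    have h1 : -v 1 + 2 * v 2 = -w 1 + 2 * w 2 := congrFun h 1
    have h2 : -v 1 - 2 * v 2 = -w 1 - 2 * w 2 := congrFun h 2
    exact e3 (by omega) (by omega) (by omega)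
  · rintro u ⟨a, b⟩
    refine ⟨![u 0 / 2, -((u 1 + u 2) / 2), (u 1 - u 2) / 4], e3 ?_ ?_ ?_⟩ <;>
      simp only [m2, Matrix.cons_val_zero, Matrix.cons_val_one, Matrix.cons_val] <;> omega

theorem sum_m3 (n : ℕ) (f : V3 → ℤ) : ∑ v ∈ vec7 (n : ℤ), f (m3 v) =
    ∑ u ∈ vec7 ((4 * n : ℕ) : ℤ), (if q3 u then 1 else 0) * f u := by
  refine sum_m ip_m3 ?_ ?_ ?_ f
  · intro v
    refine ⟨?_, ?_, ?_⟩ <;> simp only [m3, Matrix.cons_val_zero, Matrix.cons_val_one,
      Matrix.cons_val] <;> omega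
  · intro v w h
    have h0 : 2 * v 0 = 2 * w 0 := congrFun h 0
    have h1 : -2 * v 1 - 2 * v 2 = -2 * w 1 - 2 * w 2 := congrFun h 1
    have h2 : v 1 - v 2 = w 1 - w 2 := congrFun h 2
    exact e3 (by omega) (by omega) (by omega)
  · rintro u ⟨a, b, c⟩
    refine ⟨![u 0 / 2, (-(u 1 / 2) + u 2) / 2, (-(u 1 / 2) - u 2) / 2], e3 ?_ ?_ ?_⟩ <;>
      simp only [m3, Matrix.cons_val_zero, Matrix.cons_val_one, Matrix.cons_val] <;> omega

theorem sum_d2 (n : ℕ) (f : V3 → ℤ) : ∑ v ∈ vec7 (n : ℤ), f (d2 v) =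
    ∑ u ∈ vec7 ((4 * n : ℕ) : ℤ), (if qd u then 1 else 0) * f u := by
  refine sum_m ip_d2 ?_ ?_ ?_ f
  · intro v
    refine ⟨?_, ?_, ?_⟩ <;> simp only [d2, Matrix.cons_val_zero, Matrix.cons_val_one,
      Matrix.cons_val] <;> omega
  · intro v w h
    have h0 : 2 * v 0 = 2 * w 0 := congrFun h 0
    have h1 : 2 * v 1 = 2 * w 1 := congrFun h 1
    have h2 : 2 * v 2 = 2 * w 2 := congrFun h 2
    exact e3 (by omega) (by omega) (by omega)
  · rintro u ⟨a, b, c⟩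
    refine ⟨![u 0 / 2, u 1 / 2, u 2 / 2], e3 ?_ ?_ ?_⟩ <;>
      simp only [d2, Matrix.cons_val_zero, Matrix.cons_val_one, Matrix.cons_val] <;> omega

/-! ### the number of similitudes -/

set_option maxRecDepth 100000 in
theorem fin_odd : ∀ a x y : ZMod 8, (7 * a ^ 2 + x ^ 2 + 2 * y ^ 2 + x * y = 3 ∨
    7 * a ^ 2 + x ^ 2 + 2 * y ^ 2 + x * y = 7) →
    (if y.val % 2 = 0 ∧ (2 * x + y + 2 * a).val % 4 = 0 then (1 : ℤ) else 0) +
      (if (x - y).val % 4 = 0 then 1 else 0) +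
      (if x.val % 2 = 0 ∧ (x - 2 * y).val % 4 = 0 then 1 else 0) =
    1 + (if 7 * a ^ 2 + x ^ 2 + 2 * y ^ 2 + x * y = 7 then 1 else -1) *
      (if x.val % 2 = 0 ∧ y.val % 2 = 0 then 1 else 0) := by
  decide

theorem val8 (z : ℤ) : ((z : ZMod 8)).val % 4 = 0 ↔ z % 4 = 0 := by
  have h : (((z : ZMod 8)).val : ℤ) = z % 8 := ZMod.val_intCast z
  omega

theorem val2 (z : ℤ) : ((z : ZMod 8)).val % 2 = 0 ↔ z % 2 = 0 := by
  have h : (((z : ZMod 8)).val : ℤ) = z % 8 := ZMod.val_intCast z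
  omega

/-- the reduced norm equation -/
theorem red_norm {n : ℕ} {u : V3} (hu : ip7 u u = (4 * n : ℕ)) : ∃ a : ℤ, u 0 = 2 * a ∧
    7 * a ^ 2 + u 1 ^ 2 + 2 * u 2 ^ 2 + u 1 * u 2 = n := by
  have h : 7 * u 0 ^ 2 = 4 * (n - u 1 ^ 2 - 2 * u 2 ^ 2 - u 1 * u 2) := by
    unfold ip7 at hu
    push_cast at hu
    linear_combination hu
  have h2 : (2 : ℤ) ∣ u 0 := by
    have h3 : (2 : ℤ) ∣ 7 * u 0 ^ 2 := by rw [h]; exact ⟨2 * (n - u 1 ^ 2 - 2 * u 2 ^ 2 - u 1 * u 2), by ring⟩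
    rcases Int.prime_two.dvd_or_dvd h3 with h4 | h4
    · norm_num at h4
    · exact Int.prime_two.dvd_of_dvd_pow h4
  obtain ⟨a, ha⟩ := h2
  refine ⟨a, ha, ?_⟩
  rw [ha] at h
  linarith

theorem ep2_val {n : ℕ} (_ : n % 4 = 3) : ep2 n = if n % 8 = 7 then 1 else -1 := rfl

theorem count_odd {n : ℕ} (hn : n % 4 = 3) {u : V3} (hu : ip7 u u = (4 * n : ℕ)) :
    (if q1 u then (1 : ℤ) else 0) + (if q2 u then 1 else 0) + (if q3 u then 1 else 0) =
      1 + ep2 n * (if qd u then 1 else 0) := by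
  obtain ⟨a, ha, hr⟩ := red_norm hu
  have h8 : (n : ZMod 8) = 7 * (a : ZMod 8) ^ 2 + (u 1 : ZMod 8) ^ 2 + 2 * (u 2 : ZMod 8) ^ 2 +
      (u 1 : ZMod 8) * (u 2 : ZMod 8) := by
    have := congrArg (Int.cast : ℤ → ZMod 8) hr
    push_cast at this
    exact this.symm
  have h9 : (n : ZMod 8) = ((n % 8 : ℕ) : ZMod 8) := (ZMod.natCast_mod n 8).symm
  have hcase : n % 8 = 3 ∨ n % 8 = 7 := by omega
  have h10 : (7 * (a : ZMod 8) ^ 2 + (u 1 : ZMod 8) ^ 2 + 2 * (u 2 : ZMod 8) ^ 2 +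
      (u 1 : ZMod 8) * (u 2 : ZMod 8) = 3) ∨ (7 * (a : ZMod 8) ^ 2 + (u 1 : ZMod 8) ^ 2 +
      2 * (u 2 : ZMod 8) ^ 2 + (u 1 : ZMod 8) * (u 2 : ZMod 8) = 7) := by
    rw [← h8, h9]
    rcases hcase with h | h
    · left; rw [h]; rfl
    · right; rw [h]; rfl
  have key := fin_odd a (u 1) (u 2) h10
  have e1 : ((2 * (u 1 : ZMod 8) + (u 2 : ZMod 8) + 2 * (a : ZMod 8)).val % 4 = 0) ↔
      (2 * u 1 + u 2 + u 0) % 4 = 0 := by
    rw [← val8, ha]
    push_cast
    rfl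
  have e2 : (((u 1 : ZMod 8) - (u 2 : ZMod 8)).val % 4 = 0) ↔ (u 1 - u 2) % 4 = 0 := by
    rw [← val8]
    push_cast
    rfl
  have e3 : (((u 1 : ZMod 8) - 2 * (u 2 : ZMod 8)).val % 4 = 0) ↔ (u 1 - 2 * u 2) % 4 = 0 := by
    rw [← val8]
    push_cast
    rfl
  have e4 : (7 * (a : ZMod 8) ^ 2 + (u 1 : ZMod 8) ^ 2 +
      2 * (u 2 : ZMod 8) ^ 2 + (u 1 : ZMod 8) * (u 2 : ZMod 8) = 7) ↔ n % 8 = 7 := by
    rw [← h8, h9]
    rcases hcase with h | h
    · rw [h]; decide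
    · rw [h]; decide
  simp only [val2, e1, e2, e3, e4] at key
  have u0 : u 0 % 2 = 0 := by omega
  unfold q1 q2 q3 qd
  simp only [u0, true_and]
  rw [ep2_val hn]
  exact key

theorem count_even {m : ℕ} (hm : m % 4 = 1 ∨ m % 4 = 2) {u : V3}
    (hu : ip7 u u = (4 * (4 * m) : ℕ)) :
    (if q1 u then (1 : ℤ) else 0) + (if q2 u then 1 else 0) + (if q3 u then 1 else 0) = 1 := by
  obtain ⟨a, ha, hr⟩ := red_norm hu
  push_cast at hr
  have u0 : u 0 % 2 = 0 := by omega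
  unfold q1 q2 q3
  simp only [u0, true_and]
  rw [ha]
  have pa : a % 2 = 0 ∨ a % 2 = 1 := by omega
  have p1 : u 1 % 2 = 0 ∨ u 1 % 2 = 1 := by omega
  have p2 : u 2 % 2 = 0 ∨ u 2 % 2 = 1 := by omega
  generalize u 1 = x at *
  generalize u 2 = y at *
  have sqo : ∀ z : ℤ, z % 2 = 1 → ∃ k, z ^ 2 = 4 * k + 1 := by
    intro z hz
    obtain ⟨k, rfl⟩ : ∃ k, z = 2 * k + 1 := ⟨z / 2, by omega⟩
    exact ⟨k ^ 2 + k, by ring⟩
  have sqe : ∀ z : ℤ, z % 2 = 0 → ∃ k, z ^ 2 = 4 * k := by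
    intro z hz
    obtain ⟨k, rfl⟩ : ∃ k, z = 2 * k := ⟨z / 2, by omega⟩
    exact ⟨k ^ 2, by ring⟩
  rcases p1 with p1 | p1 <;> rcases p2 with p2 | p2
  · -- both even
    obtain ⟨s, hs⟩ : ∃ s, x = 2 * s := ⟨x / 2, by omega⟩
    obtain ⟨t, ht⟩ : ∃ t, y = 2 * t := ⟨y / 2, by omega⟩
    subst hs ht
    have ea : a % 2 = 0 := by
      rcases pa with h | h
      · exact h
      · exfalso
        obtain ⟨k, hk⟩ := sqo a h
        have : 7 * a ^ 2 = 4 * (m - s ^ 2 - 2 * t ^ 2 - s * t) := by linarith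
        omega
    obtain ⟨b, hb⟩ : ∃ b, a = 2 * b := ⟨a / 2, by omega⟩
    subst hb
    have hr2 : 7 * b ^ 2 + s ^ 2 + 2 * t ^ 2 + s * t = m := by linarith
    have pb : b % 2 = 0 ∨ b % 2 = 1 := by omega
    have ps : s % 2 = 0 ∨ s % 2 = 1 := by omega
    have pt : t % 2 = 0 ∨ t % 2 = 1 := by omega
    rcases ps with ps | ps <;> rcases pt with pt | pt
    · exfalso
      obtain ⟨k1, hk1⟩ := sqe s ps
      obtain ⟨k2, hk2⟩ := sqe t pt
      obtain ⟨s', hs'⟩ : ∃ s', s = 2 * s' := ⟨s / 2, by omega⟩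
      obtain ⟨t', ht'⟩ : ∃ t', t = 2 * t' := ⟨t / 2, by omega⟩
      have hst : s * t = 4 * (s' * t') := by rw [hs', ht']; ring
      rcases pb with h | h
      · obtain ⟨k, hk⟩ := sqe b h
        rw [hk, hk1, hk2, hst] at hr2
        generalize s' * t' = w at hr2
        omega
      · obtain ⟨k, hk⟩ := sqo b h
        rw [hk, hk1, hk2, hst] at hr2
        generalize s' * t' = w at hr2
        omega
    · rw [if_neg (by omega), if_neg (by omega), if_pos (by omega)]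
      norm_num
    · rw [if_pos (by omega), if_neg (by omega), if_neg (by omega)]
      norm_num
    · rw [if_neg (by omega), if_pos (by omega), if_neg (by omega)]
      norm_num
  · -- `x` even, `y` odd
    obtain ⟨s, hs⟩ : ∃ s, x = 2 * s := ⟨x / 2, by omega⟩
    subst hs
    obtain ⟨k2, hk2⟩ := sqo y p2
    rw [if_neg (by omega), if_neg (by omega)]
    have hs1 : s % 2 = 1 := by
      by_contra hc
      have ps : s % 2 = 0 := by omega
      obtain ⟨k1, hk1⟩ := sqe s ps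
      obtain ⟨s', hs'⟩ : ∃ s', s = 2 * s' := ⟨s / 2, by omega⟩
      have h1 : 7 * a ^ 2 = 4 * (m - s ^ 2 - s' * y) - 2 * y ^ 2 := by
        rw [hs'] at hr ⊢; linarith
      rw [hk2] at h1
      rcases pa with h | h
      · obtain ⟨k, hk⟩ := sqe a h
        rw [hk] at h1
        generalize (m : ℤ) - s ^ 2 - s' * y = w at h1
        omega
      · obtain ⟨k, hk⟩ := sqo a h
        rw [hk] at h1
        generalize (m : ℤ) - s ^ 2 - s' * y = w at h1
        omega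
    rw [if_pos (by omega)]
    norm_num
  · -- `x` odd, `y` even
    obtain ⟨t, ht⟩ : ∃ t, y = 2 * t := ⟨y / 2, by omega⟩
    subst ht
    obtain ⟨k1, hk1⟩ := sqo x p1
    rw [if_neg (show ¬ ((x - 2 * t) % 4 = 0) by omega),
      if_neg (show ¬ (x % 2 = 0 ∧ (x - 2 * (2 * t)) % 4 = 0) by omega)]
    have hat : (2 * x + 2 * t + 2 * a) % 4 = 0 := by
      have h1 : 7 * a ^ 2 + x ^ 2 + 2 * (x * t) = 4 * (m - 2 * t ^ 2) := by linarith
      have pt : t % 2 = 0 ∨ t % 2 = 1 := by omega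
      rw [hk1] at h1
      generalize (m : ℤ) - 2 * t ^ 2 = w at h1
      rcases pt with pt | pt
      · obtain ⟨t', ht'⟩ : ∃ t', t = 2 * t' := ⟨t / 2, by omega⟩
        have hxt : x * t = 2 * (x * t') := by rw [ht']; ring
        rw [hxt] at h1
        generalize x * t' = z at h1
        rcases pa with h | h
        · exfalso
          obtain ⟨k, hk⟩ := sqe a h
          rw [hk] at h1
          omega
        · omega
      · have hxt : ∃ z, x * t = 2 * z + 1 := by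
          refine ⟨(x * t) / 2, ?_⟩
          have h5 : (x * t) % 2 = 1 := by rw [Int.mul_emod, p1, pt]; rfl
          generalize x * t = w2 at h5 ⊢
          omega
        obtain ⟨z, hz⟩ := hxt
        rw [hz] at h1
        rcases pa with h | h
        · exfalso
          obtain ⟨k, hk⟩ := sqe a h
          rw [hk] at h1
          omega
        · exfalso
          obtain ⟨k, hk⟩ := sqo a h
          rw [hk] at h1
          omega
    rw [if_pos (by omega)]
    norm_num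
  · -- both odd
    obtain ⟨k1, hk1⟩ := sqo x p1
    obtain ⟨k2, hk2⟩ := sqo y p2
    rw [if_neg (show ¬ (y % 2 = 0 ∧ (2 * x + y + 2 * a) % 4 = 0) by omega),
      if_neg (show ¬ (x % 2 = 0 ∧ (x - 2 * y) % 4 = 0) by omega)]
    have hxy : (x - y) % 4 = 0 := by
      by_contra hc
      have hc' : (x + y) % 4 = 0 := by omega
      obtain ⟨r, hr'⟩ : ∃ r, x = 4 * r - y := ⟨(x + y) / 4, by omega⟩
      have h1 : x * y = 4 * (r * y) - y ^ 2 := by rw [hr']; ring
      rw [h1, hk1, hk2] at hr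
      generalize r * y = z at hr
      rcases pa with h | h
      · obtain ⟨k, hk⟩ := sqe a h
        rw [hk] at hr
        omega
      · obtain ⟨k, hk⟩ := sqo a h
        rw [hk] at hr
        omega
    rw [if_pos (by omega)]
    norm_num

/-! ### the weights -/

theorem jm7 {a b : ℤ} (h : (7 : ℤ) ∣ a - b) : jacobiSym a 7 = jacobiSym b 7 := by
  apply jacobiSym.mod_left'
  omega

theorem oo_two (x : ℤ) : jacobiSym (2 * x) 7 = jacobiSym x 7 := by
  rw [jacobiSym.mul_left, show jacobiSym 2 7 = 1 by norm_num, one_mul]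

theorem oo_m1 (v : V3) : oo (m1 v) = oo v := by
  unfold oo
  rw [← oo_two (2 * v 1 + v 2)]
  apply jm7
  simp only [m1, Matrix.cons_val_one, Matrix.cons_val]
  omega

theorem oo_m2 (v : V3) : oo (m2 v) = oo v := by
  unfold oo
  rw [← oo_two (2 * v 1 + v 2)]
  apply jm7
  simp only [m2, Matrix.cons_val_one, Matrix.cons_val]
  omega

theorem oo_m3 (v : V3) : oo (m3 v) = oo v := by
  unfold oo
  rw [← oo_two (2 * v 1 + v 2)]
  apply jm7
  simp only [m3, Matrix.cons_val_one, Matrix.cons_val]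
  omega

theorem wn_eq (v : V3) : wn v = 2 * (li 0 v * (oo v * mm 0 v)) := by
  unfold wn li
  have e : L3 0 v = v 1 + v 0 := by simp [L3]; ring
  rw [e]
  have e2 : mm 0 v = jacobiSym (v 1 + v 2) 3 := rfl
  have e3 : oo v = jacobiSym (2 * v 1 + v 2) 7 := rfl
  rw [e2, e3]
  split_ifs <;> ring

theorem wn_m1 (v : V3) : wn (m1 v) = 2 * (li 1 v * (oo v * mm 1 v)) := by
  rw [wn_eq, oo_m1]
  unfold li
  have e : (3 : ℤ) ∣ L3 0 (m1 v) ↔ (3 : ℤ) ∣ L3 1 v := by
    simp only [L3, m1, Matrix.cons_val_zero, Matrix.cons_val_one, Matrix.cons_val]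
    omega
  by_cases h : (3 : ℤ) ∣ L3 1 v
  · have e2 : mm 0 (m1 v) = mm 1 v := by
      unfold mm
      apply jm3
      simp only [L3, k3, m1, Matrix.cons_val_zero, Matrix.cons_val_one, Matrix.cons_val] at h ⊢
      omega
    rw [if_pos (e.2 h), if_pos h, e2]
  · rw [if_neg (fun h' => h (e.1 h')), if_neg h]
    ring

theorem wn_m2 (v : V3) : wn (m2 v) = 2 * (li 1 v * (oo v * mm 1 v)) := by
  rw [wn_eq, oo_m2]
  unfold li
  have e : (3 : ℤ) ∣ L3 0 (m2 v) ↔ (3 : ℤ) ∣ L3 1 v := by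
    simp only [L3, m2, Matrix.cons_val_zero, Matrix.cons_val_one, Matrix.cons_val]
    omega
  by_cases h : (3 : ℤ) ∣ L3 1 v
  · have e2 : mm 0 (m2 v) = mm 1 v := by
      unfold mm
      apply jm3
      simp only [L3, k3, m2, Matrix.cons_val_zero, Matrix.cons_val_one, Matrix.cons_val] at h ⊢
      omega
    rw [if_pos (e.2 h), if_pos h, e2]
  · rw [if_neg (fun h' => h (e.1 h')), if_neg h]
    ring

theorem wn_m3 (v : V3) : wn (m3 v) = -(2 * (li 2 v * (oo v * mm 2 v))) := by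
  rw [wn_eq, oo_m3]
  unfold li
  have e : (3 : ℤ) ∣ L3 0 (m3 v) ↔ (3 : ℤ) ∣ L3 2 v := by
    simp only [L3, m3, Matrix.cons_val_zero, Matrix.cons_val_one, Matrix.cons_val]
    omega
  by_cases h : (3 : ℤ) ∣ L3 2 v
  · have e2 : mm 0 (m3 v) = - mm 2 v := by
      unfold mm
      rw [← jneg3]
      apply jm3
      simp only [L3, k3, m3, Matrix.cons_val_zero, Matrix.cons_val_one, Matrix.cons_val] at h ⊢
      omega
    rw [if_pos (e.2 h), if_pos h, e2]
    ring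
  · rw [if_neg (fun h' => h (e.1 h')), if_neg h]
    ring

theorem wn_d2 (v : V3) : wn (d2 v) = - wn v := by
  rw [wn_eq, wn_eq]
  unfold li
  have e : (3 : ℤ) ∣ L3 0 (d2 v) ↔ (3 : ℤ) ∣ L3 0 v := by
    simp only [L3, d2, Matrix.cons_val_zero, Matrix.cons_val_one]
    omega
  have e2 : mm 0 (d2 v) = - mm 0 v := by
    unfold mm
    rw [← jneg3]
    apply jm3
    simp only [k3, d2, Matrix.cons_val_zero, Matrix.cons_val_one, Matrix.cons_val]
    omega
  have e3 : oo (d2 v) = oo v := by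
    unfold oo
    rw [← oo_two (2 * v 1 + v 2)]
    apply jm7
    simp only [d2, Matrix.cons_val_one, Matrix.cons_val]
    omega
  simp only [e]
  rw [e2, e3]
  ring

/-- the sum over the three similitudes -/
theorem sum_three (n : ℕ) : (∑ v ∈ vec7 (n : ℤ), wn (m1 v)) + (∑ v ∈ vec7 (n : ℤ), wn (m2 v)) +
    (∑ v ∈ vec7 (n : ℤ), wn (m3 v)) = cn n := by
  have e1 : ∑ v ∈ vec7 (n : ℤ), wn (m1 v) = 2 * Gs 1 n (fun i v => oo v * mm i v) := by
    unfold Gs
    rw [mul_sum]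
    exact sum_congr rfl fun v _ => wn_m1 v
  have e2 : ∑ v ∈ vec7 (n : ℤ), wn (m2 v) = 2 * Gs 1 n (fun i v => oo v * mm i v) := by
    unfold Gs
    rw [mul_sum]
    exact sum_congr rfl fun v _ => wn_m2 v
  have e3 : ∑ v ∈ vec7 (n : ℤ), wn (m3 v) = -(2 * Gs 2 n (fun i v => oo v * mm i v)) := by
    unfold Gs
    rw [mul_sum, ← sum_neg_distrib]
    exact sum_congr rfl fun v _ => wn_m3 v
  rw [e1, e2, e3, Gs_P n 1, Gs_P n 2, cn_eq]
  ring

/-- **HEN** -/
theorem t_HEN : S_HEN := by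
  constructor
  · intro n hn _ _
    have h1 := sum_three n
    rw [sum_m1, sum_m2, sum_m3, ← sum_add_distrib, ← sum_add_distrib] at h1
    have h2 : ∀ u ∈ vec7 ((4 * n : ℕ) : ℤ), (if q1 u then 1 else 0) * wn u +
        (if q2 u then 1 else 0) * wn u + (if q3 u then 1 else 0) * wn u =
        wn u + ep2 n * ((if qd u then 1 else 0) * wn u) := by
      intro u hu
      rw [mem7] at hu
      have := count_odd hn hu
      linear_combination (wn u) * this
    rw [sum_congr rfl h2, sum_add_distrib, ← mul_sum, ← sum_d2] at h1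
    have h3 : ∑ v ∈ vec7 (n : ℤ), wn (d2 v) = - cn n := by
      unfold cn
      rw [← sum_neg_distrib]
      exact sum_congr rfl fun v _ => wn_d2 v
    rw [h3] at h1
    have h4 : cn (4 * (n : ℤ)) = ∑ u ∈ vec7 ((4 * n : ℕ) : ℤ), wn u := by
      unfold cn
      push_cast
      rfl
    rw [h4]
    linear_combination h1
  · intro m hm _ _
    have h1 := sum_three (4 * m)
    rw [sum_m1, sum_m2, sum_m3, ← sum_add_distrib, ← sum_add_distrib] at h1
    have h2 : ∀ u ∈ vec7 ((4 * (4 * m) : ℕ) : ℤ), (if q1 u then 1 else 0) * wn u +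
        (if q2 u then 1 else 0) * wn u + (if q3 u then 1 else 0) * wn u = wn u := by
      intro u hu
      rw [mem7] at hu
      have := count_even hm hu
      linear_combination (wn u) * this
    rw [sum_congr rfl h2] at h1
    have h4 : cn (16 * (m : ℤ)) = ∑ u ∈ vec7 ((4 * (4 * m) : ℕ) : ℤ), wn u := by
      unfold cn
      have : ((4 * (4 * m) : ℕ) : ℤ) = 16 * (m : ℤ) := by push_cast; ring
      rw [this]
    rw [h4, h1]
    push_cast
    rfl

end Pool.Agent.N970.P21G
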