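import Pool.Agent.N218.P21G.Lin7
import Pool.Agent.N575.P21G.Stm
import Pool.Agent.N970.P17G.Ort

/-!
# ORT3, ORT21, ORTN: the assembly
-/

set_option autoImplicit false

namespace Pool.Agent.N970.P21G

open Finset
open Pool.Agent.N969.P15 (V3 Ev c2)
open Pool.Agent.N969.P17G (sgnE sg2 sgp)
open Pool.Agent.N969.RQ (Fd ud ip7 vec7)
open Pool.Agent.N877.P21G
open Pool.Agent.N218.P21G (SF FA FA_mul FA_rot FA_neg F_rot sum_rot sum_neg7 exists_SF id3 m3 MM
  m3_mul rot_mem neg_mem sqf_of sum_id3 id3_rot m3_rot)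
open Pool.Agent.N970.RQ (rot7 rot7_rot7 L3 oo oo_mul oo_rot)
open Pool.Agent.N575.P21G (S_X7)

/-! ### the signs of the divisors which are not discriminants -/

theorem prod_neg_one {a : ℕ} (hs : Squarefree a) (_ : a % 2 = 1) :
    ∏ p ∈ a.primeFactors, jacobiSym (-1) p = jacobiSym (-1) a := by
  conv_rhs => rw [← Nat.prod_primeFactors_of_squarefree hs]
  rw [Pool.Agent.Y574.Z7.jac_prod _ _ fun q hq => (Nat.prime_of_mem_primeFactors hq).ne_zero]

theorem sgp_zero {n p : ℕ} : sgp 1 n p 0 = jacobiSym (-1) p := by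
  unfold sgp
  rw [if_pos (dvd_zero _), Int.zero_ediv, if_pos (dvd_zero _)]
  norm_num

theorem sgnE_not {n A : ℕ} (hn : Fn n) (hA : A ∈ ud n) (h1 : A ≠ 1) (hF : ¬ Fd A) :
    sgnE 1 A n 0 = -1 := by
  unfold ud at hA
  rw [mem_filter, Nat.mem_divisors] at hA
  obtain ⟨⟨hd, hn0⟩, hc⟩ := hA
  have hA0 : A ≠ 0 := fun h => hn0 (by rw [h] at hd; exact zero_dvd_iff.1 hd)
  by_cases h2 : 2 ∣ A
  · -- even
    have hE : Ev n := Pool.Agent.N218.P21G.ev_of hn (h2.trans hd)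
    have hmul : A * (n / A) = n := Nat.mul_div_cancel' hd
    have hodd : ¬ 2 ∣ n / A := by
      intro h
      have := Nat.dvd_gcd h2 h
      rw [hc] at this
      omega
    obtain ⟨M, hM, hs, h4⟩ := hE
    have h4A : 4 ∣ A := by
      have : 4 ∣ A * (n / A) := by rw [hmul]; exact ⟨M, hM⟩
      have h3 : Nat.Coprime 4 (n / A) := by
        have : Nat.Coprime 2 (n / A) := (Nat.Prime.coprime_iff_not_dvd Nat.prime_two).2 hodd
        exact Nat.Coprime.pow_left 2 this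
      exact h3.dvd_of_dvd_mul_right this
    obtain ⟨a, ha⟩ := h4A
    have hM2 : M = a * (n / A) := by
      have : 4 * M = 4 * (a * (n / A)) := by rw [← hM, ← mul_assoc, ← ha, hmul]
      omega
    have hsa : Squarefree a := by
      rw [hM2] at hs
      exact hs.squarefree_of_dvd (dvd_mul_right _ _)
    have ha4 : a % 4 = 1 := by
      have h5 : ¬ 4 ∣ a := by
        intro h
        have := hsa 2 (by simpa using h)
        norm_num at this
      by_contra hne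
      apply hF
      refine ⟨by omega, Or.inr ⟨a, ha, hsa, by omega⟩⟩
    have hM4 : M % 4 = 1 := by
      rcases h4 with h | h
      · exact h
      · exfalso
        have h6 : M % 2 = 0 := by omega
        rw [hM2, Nat.mul_mod] at h6
        have h7 : a % 2 = 1 := by omega
        have h8 : (n / A) % 2 = 1 := by omega
        rw [h7, h8] at h6
        omega
    have hpf : A.primeFactors = insert 2 a.primeFactors := by
      rw [ha, Nat.primeFactors_mul (by norm_num) hsa.ne_zero]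
      have : (4 : ℕ).primeFactors = {2} := by
        rw [show (4 : ℕ) = 2 ^ 2 by norm_num, Nat.primeFactors_prime_pow (by norm_num) Nat.prime_two]
      rw [this]
      rfl
    have h2a : 2 ∉ a.primeFactors := by
      intro h
      have := Nat.dvd_of_mem_primeFactors h
      omega
    unfold sgnE
    rw [hpf, prod_insert h2a, if_pos rfl]
    have e1 : ∏ p ∈ a.primeFactors, (if p = 2 then sg2 1 n 0 else sgp 1 n p 0) = 1 := by
      have : ∀ p ∈ a.primeFactors, (if p = 2 then sg2 1 n 0 else sgp 1 n p 0) =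
          jacobiSym (-1) p := by
        intro p hp
        rw [if_neg (by rintro rfl; exact h2a hp), sgp_zero]
      rw [prod_congr rfl this, prod_neg_one hsa (by omega),
        jacobiSym.at_neg_one (Nat.odd_iff.2 (by omega)), ZMod.χ₄_nat_one_mod_four ha4]
    rw [e1, mul_one]
    unfold sg2
    rw [if_pos rfl]
    unfold c2
    have h16 : n % 16 = 4 := by omega
    rw [h16]
    norm_num
  · -- odd
    have hs : Squarefree A := by
      rcases hn with ⟨hs, -⟩ | ⟨M, hM, hs, -⟩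
      · exact hs.squarefree_of_dvd hd
      · have h3 : Nat.Coprime A 4 := by
          have : Nat.Coprime A 2 := ((Nat.Prime.coprime_iff_not_dvd Nat.prime_two).2 h2).symm
          exact Nat.Coprime.pow_right 2 this
        rw [hM] at hd
        exact hs.squarefree_of_dvd (h3.dvd_of_dvd_mul_left hd)
    have h4 : A % 4 = 3 := by
      by_contra hne
      apply hF
      exact ⟨by omega, Or.inl ⟨hs, by omega⟩⟩
    unfold sgnE
    have : ∀ p ∈ A.primeFactors, (if p = 2 then sg2 1 n 0 else sgp 1 n p 0) =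
        jacobiSym (-1) p := by
      intro p hp
      rw [if_neg (by rintro rfl; exact h2 (Nat.dvd_of_mem_primeFactors hp)), sgp_zero]
    rw [prod_congr rfl this, prod_neg_one hs (by omega),
      jacobiSym.at_neg_one (Nat.odd_iff.2 (by omega)), ZMod.χ₄_nat_three_mod_four h4]

/-! ### unitary divisors prime to `7` -/

theorem sum_ud7 {n : ℕ} (hn : n ≠ 0) (f : Finset ℕ → ℤ) :
    ∑ A ∈ (ud n).filter (fun A => ¬ 7 ∣ A), f A.primeFactors =
      ∑ s ∈ (n.primeFactors.erase 7).powerset, f s := by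
  have h7 : Nat.Prime 7 := by norm_num
  have hmul : ordProj[7] n * ordCompl[7] n = n := Nat.ordProj_mul_ordCompl_eq_self n 7
  have hD0 : ordCompl[7] n ≠ 0 := (Nat.ordCompl_pos 7 hn).ne'
  have hcop7 : Nat.Coprime 7 (ordCompl[7] n) := Nat.coprime_ordCompl h7 hn
  have hD : ordCompl[7] n ∣ n := Nat.ordCompl_dvd n 7
  have hq : n / ordCompl[7] n = ordProj[7] n := by
    apply Nat.div_eq_of_eq_mul_left (Nat.pos_of_ne_zero hD0)
    exact hmul.symm
  have hc : Nat.Coprime (ordCompl[7] n) (n / ordCompl[7] n) := by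
    rw [hq]
    exact (hcop7.pow_left _).symm
  have hpf : (ordCompl[7] n).primeFactors = n.primeFactors.erase 7 := by
    rw [← Nat.support_factorization, Nat.factorization_ordCompl, Finsupp.support_erase,
      Nat.support_factorization]
  have hset : (ordCompl[7] n).divisors.filter (fun A => Nat.Coprime A (n / A)) =
      (ud n).filter (fun A => ¬ 7 ∣ A) := by
    ext A
    unfold ud
    simp only [mem_filter, Nat.mem_divisors]
    constructor
    · rintro ⟨⟨h1, -⟩, h2⟩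
      refine ⟨⟨⟨h1.trans hD, hn⟩, h2⟩, ?_⟩
      intro h
      have := hcop7.coprime_dvd_right h1
      have h3 := Nat.dvd_gcd (dvd_refl 7) h
      rw [this] at h3
      omega
    · rintro ⟨⟨⟨h1, -⟩, h2⟩, h3⟩
      refine ⟨⟨?_, hD0⟩, h2⟩
      have h4 : Nat.Coprime A (ordProj[7] n) :=
        (((Nat.Prime.coprime_iff_not_dvd h7).2 h3).pow_left _).symm
      rw [← hmul] at h1
      exact h4.dvd_of_dvd_mul_left h1
  rw [← hset, Pool.Agent.N970.P17G.sum_unitary hn hD hc f, hpf]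

/-! ### the divisibility -/

theorem even_sum {n : ℕ} {t : V3 → ℤ} (ht : ∀ v ∈ vec7 (n : ℤ), t v = 0 ∨ t v = 1)
    (hr : ∀ v ∈ vec7 (n : ℤ), t (rot7 v) = t v) (hfix : ∀ v ∈ vec7 (n : ℤ), rot7 v ≠ v) :
    (2 : ℤ) ∣ ∑ v ∈ vec7 (n : ℤ), t v := by
  have key : ((∑ v ∈ vec7 (n : ℤ), t v : ℤ) : ZMod 2) = 0 := by
    push_cast
    refine sum_involution (fun v _ => rot7 v) ?_ (fun v hv _ => hfix v hv)
      (fun v hv => rot_mem hv) (fun v _ => rot7_rot7 v)
    intro v hv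
    rw [hr v hv]
    rcases ht v hv with h | h <;> rw [h]
    · rfl
    · decide
  exact_mod_cast (ZMod.intCast_zmod_eq_zero_iff_dvd _ 2).1 key

theorem gen_ort {n : ℕ} (hn : Fn n) {F : ℕ → V3 → ℤ} (H : SF n F) {g : V3 → ℤ}
    (hg : ∀ v ∈ vec7 (n : ℤ), g v = 0 ∨ g v = 2) (hneg : ∀ v ∈ vec7 (n : ℤ), g (-v) = g v)
    (hrot : ∀ v ∈ vec7 (n : ℤ), g (rot7 v) = g v) (hfix : ∀ v ∈ vec7 (n : ℤ), rot7 v ≠ v) :
    (2 : ℤ) ^ ((n.primeFactors.erase 7).card + 2) ∣
      ∑ A ∈ pd n, ∑ v ∈ vec7 (n : ℤ), g v * FA F A v := by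
  classical
  have hn0 : n ≠ 0 := by
    rcases hn with ⟨hs, -⟩ | ⟨M, hM, hs, -⟩
    · exact hs.ne_zero
    · have := hs.ne_zero
      omega
  have hsub : pd n ⊆ (ud n).filter (fun A => ¬ 7 ∣ A) := by
    intro A hA
    unfold pd at hA
    rw [mem_filter] at hA ⊢
    exact ⟨hA.1, hA.2.2⟩
  have hzero : ∀ A ∈ (ud n).filter (fun A => ¬ 7 ∣ A), A ∉ pd n →
      ∑ v ∈ vec7 (n : ℤ), g v * FA F A v = 0 := by
    intro A hA hnot
    rw [mem_filter] at hA
    have h1 : ¬ (A = 1 ∨ Fd A) := by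
      intro h
      apply hnot
      unfold pd
      rw [mem_filter]
      exact ⟨hA.1, h, hA.2⟩
    push Not at h1
    have hs := sgnE_not hn hA.1 h1.1 h1.2
    have hd : A ∣ n := by
      have := hA.1
      unfold ud at this
      rw [mem_filter, Nat.mem_divisors] at this
      exact this.1.1
    have h2 := sum_neg7 n (fun v => g v * FA F A v)
    have h3 : ∑ v ∈ vec7 (n : ℤ), g (-v) * FA F A (-v) =
        - ∑ v ∈ vec7 (n : ℤ), g v * FA F A v := by
      rw [← sum_neg_distrib]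
      refine sum_congr rfl fun v hv => ?_
      rw [hneg v hv, FA_neg H hd hA.2 hv, hs]
      ring
    rw [h3] at h2
    linarith
  rw [sum_subset hsub hzero]
  have e1 : ∑ A ∈ (ud n).filter (fun A => ¬ 7 ∣ A), ∑ v ∈ vec7 (n : ℤ), g v * FA F A v =
      ∑ v ∈ vec7 (n : ℤ), g v * ∏ p ∈ n.primeFactors.erase 7, (1 + F p v) := by
    unfold FA
    rw [sum_ud7 hn0 (fun s => ∑ v ∈ vec7 (n : ℤ), g v * ∏ p ∈ s, F p v), sum_comm]
    refine sum_congr rfl fun v _ => ?_
    rw [← mul_sum, prod_one_add]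
  rw [e1]
  have e2 : ∀ v ∈ vec7 (n : ℤ), g v * ∏ p ∈ n.primeFactors.erase 7, (1 + F p v) =
      2 ^ ((n.primeFactors.erase 7).card + 1) *
        (if g v = 2 ∧ ∀ p ∈ n.primeFactors.erase 7, F p v = 1 then 1 else 0) := by
    intro v hv
    by_cases h1 : ∀ p ∈ n.primeFactors.erase 7, F p v = 1
    · have : ∏ p ∈ n.primeFactors.erase 7, (1 + F p v) =
          2 ^ (n.primeFactors.erase 7).card := by
        rw [prod_congr rfl (fun p hp => by rw [h1 p hp]), prod_const]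
        norm_num
      rw [this]
      rcases hg v hv with h | h
      · rw [h, if_neg (by rintro ⟨h3, -⟩; norm_num at h3)]
        ring
      · rw [h, if_pos ⟨rfl, h1⟩]
        ring
    · rw [if_neg (fun h => h1 h.2)]
      push Not at h1
      obtain ⟨p, hp, hne⟩ := h1
      have : F p v = -1 := (H.pm p v).resolve_left hne
      rw [prod_eq_zero hp (by rw [this]; norm_num)]
      ring
  rw [sum_congr rfl e2, ← mul_sum, pow_succ _ ((n.primeFactors.erase 7).card + 1)]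
  apply mul_dvd_mul_left
  apply even_sum
  · intro v _
    split_ifs
    · exact Or.inr rfl
    · exact Or.inl rfl
  · intro v hv
    have h3 : (g (rot7 v) = 2 ∧ ∀ p ∈ n.primeFactors.erase 7, F p (rot7 v) = 1) ↔
        (g v = 2 ∧ ∀ p ∈ n.primeFactors.erase 7, F p v = 1) := by
      rw [hrot v hv]
      apply and_congr_right
      intro _
      apply forall₂_congr
      intro p hp
      rw [mem_erase] at hp
      rw [F_rot hn H (Nat.prime_of_mem_primeFactors hp.2) hp.1 (Nat.dvd_of_mem_primeFactors hp.2) hv]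
    simp only [h3]
  · exact hfix

/-- the unweighted sums vanish -/
theorem step {n : ℕ} (X : S_X7) (hn : Fn n) {F : ℕ → V3 → ℤ} (H : SF n F) {W g : V3 → ℤ}
    (hW : ∀ v ∈ vec7 (n : ℤ), 2 + W v + W (rot7 v) = 2 * g v) :
    ((vec7 (n : ℤ)).card : ℤ) + ∑ A ∈ pd n, ∑ v ∈ vec7 (n : ℤ), W v * FA F A v =
      ∑ A ∈ pd n, ∑ v ∈ vec7 (n : ℤ), g v * FA F A v := by
  classical
  have hn0 : n ≠ 0 := by
    rcases hn with ⟨hs, -⟩ | ⟨M, hM, hs, -⟩
    · exact hs.ne_zero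
    · have := hs.ne_zero
      omega
  have hdd : ∀ A ∈ pd n, A ∣ n ∧ ¬ 7 ∣ A := by
    intro A hA
    unfold pd at hA
    rw [mem_filter] at hA
    have := hA.1
    unfold ud at this
    rw [mem_filter, Nat.mem_divisors] at this
    exact ⟨this.1.1, hA.2.2⟩
  have h1 : ∀ A ∈ pd n, ∑ v ∈ vec7 (n : ℤ), g v * FA F A v =
      ∑ v ∈ vec7 (n : ℤ), FA F A v + ∑ v ∈ vec7 (n : ℤ), W v * FA F A v := by
    intro A hA
    have h2 := sum_rot n (fun v => W v * FA F A v)
    have h3 : ∑ v ∈ vec7 (n : ℤ), W (rot7 v) * FA F A (rot7 v) =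
        ∑ v ∈ vec7 (n : ℤ), W (rot7 v) * FA F A v := by
      refine sum_congr rfl fun v hv => ?_
      rw [FA_rot hn H (hdd A hA).1 (hdd A hA).2 hv]
    rw [h3] at h2
    have h4 : 2 * ∑ v ∈ vec7 (n : ℤ), g v * FA F A v = 2 * ∑ v ∈ vec7 (n : ℤ), FA F A v +
        ∑ v ∈ vec7 (n : ℤ), W v * FA F A v + ∑ v ∈ vec7 (n : ℤ), W (rot7 v) * FA F A v := by
      rw [mul_sum, mul_sum, ← sum_add_distrib, ← sum_add_distrib]
      refine sum_congr rfl fun v hv => ?_
      linear_combination (-FA F A v) * hW v hv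
    rw [h2] at h4
    linarith
  rw [sum_congr rfl h1, sum_add_distrib]
  congr 1
  have h1m : (1 : ℕ) ∈ pd n := by
    unfold pd ud
    rw [mem_filter, mem_filter, Nat.mem_divisors]
    exact ⟨⟨⟨one_dvd _, hn0⟩, Nat.coprime_one_left _⟩, Or.inl rfl, by norm_num⟩
  have hz : ∑ A ∈ (pd n).erase 1, ∑ v ∈ vec7 (n : ℤ), FA F A v = 0 := by
    refine sum_eq_zero fun A hA => ?_
    rw [mem_erase] at hA
    have h5 := X n A hn hA.2 hA.1
    unfold X7 at h5
    have h6 : ∑ v ∈ vec7 (n : ℤ), ∑ w ∈ vec7 (n : ℤ), sgnE 1 A n ((n + ip7 v w) / 2) =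
        (∑ v ∈ vec7 (n : ℤ), FA F A v) ^ 2 := by
      rw [pow_two, sum_mul_sum]
      refine sum_congr rfl fun v hv => sum_congr rfl fun w hw => ?_
      rw [FA_mul H (hdd A hA.2).1 (hdd A hA.2).2 hv hw]
    rw [h6] at h5
    exact pow_eq_zero_iff (by norm_num) |>.1 h5
  rw [← add_sum_erase _ _ h1m, hz, add_zero]
  unfold FA
  simp

theorem P7_sq {n : ℕ} {F : ℕ → V3 → ℤ} (H : SF n F) {A : ℕ} (hd : A ∣ n) (h7 : ¬ 7 ∣ A) :
    P7 A n = (∑ v ∈ vec7 (n : ℤ), w7 n v * FA F A v) ^ 2 := by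
  unfold P7
  rw [pow_two, sum_mul_sum]
  refine sum_congr rfl fun v hv => sum_congr rfl fun w hw => ?_
  rw [FA_mul H hd h7 hv hw]
  ring

theorem N7_sq {n : ℕ} {F : ℕ → V3 → ℤ} (H : SF n F) {A : ℕ} (hd : A ∣ n) (h7 : ¬ 7 ∣ A) :
    N7 A n = (∑ v ∈ vec7 (n : ℤ), wn v * FA F A v) ^ 2 := by
  unfold N7
  rw [pow_two, sum_mul_sum]
  refine sum_congr rfl fun v hv => sum_congr rfl fun w hw => ?_
  rw [FA_mul H hd h7 hv hw]
  ring

theorem pd_dvd {n A : ℕ} (hA : A ∈ pd n) : A ∣ n ∧ ¬ 7 ∣ A := by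
  classical
  unfold pd at hA
  rw [mem_filter] at hA
  have := hA.1
  unfold ud at this
  rw [mem_filter, Nat.mem_divisors] at this
  exact ⟨this.1.1, hA.2.2⟩

/-! ### the weights for `3 ∣ n` -/

theorem lines_one : ∀ a b c : ZMod 3, ¬ (a = 0 ∧ b = 0 ∧ c = 0) →
    a ^ 2 + b ^ 2 + 2 * c ^ 2 + b * c = 0 →
    (1 + (if a + b = 0 then (1 : ℤ) else 0) - (if a - b = 0 then 1 else 0) +
      (if a - b - c = 0 then 1 else 0) - (if a + b + c = 0 then 1 else 0) = 0 ∨
    1 + (if a + b = 0 then (1 : ℤ) else 0) - (if a - b = 0 then 1 else 0) +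
      (if a - b - c = 0 then 1 else 0) - (if a + b + c = 0 then 1 else 0) = 2) := by
  decide

theorem d3 (z : ℤ) : (3 : ℤ) ∣ z ↔ ((z : ℤ) : ZMod 3) = 0 :=
  (ZMod.intCast_zmod_eq_zero_iff_dvd z 3).symm

/-- the symmetrised weight -/
def g3 (v : V3) : ℤ := 1 + id3 0 v - id3 3 v + id3 2 v - id3 1 v

theorem one_line {n : ℕ} (h3 : 3 ∣ n) (h9 : ¬ 9 ∣ n) {v : V3} (hv : ip7 v v = n) :
    g3 v = 0 ∨ g3 v = 2 := by
  have hne : ¬ ((v 0 : ZMod 3) = 0 ∧ (v 1 : ZMod 3) = 0 ∧ (v 2 : ZMod 3) = 0) := by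
    intro hc
    simp only [← d3] at hc
    obtain ⟨⟨a, ha⟩, ⟨b, hb⟩, ⟨c, hc⟩⟩ := hc
    apply h9
    have : ((9 : ℕ) : ℤ) ∣ (n : ℤ) := by
      rw [← hv]
      refine ⟨7 * a ^ 2 + 4 * b ^ 2 + 8 * c ^ 2 + 4 * (b * c), ?_⟩
      unfold ip7
      rw [ha, hb, hc]
      push_cast
      ring
    exact_mod_cast this
  have h0 : (v 0 : ZMod 3) ^ 2 + (v 1 : ZMod 3) ^ 2 + 2 * (v 2 : ZMod 3) ^ 2 +
      (v 1 : ZMod 3) * (v 2 : ZMod 3) = 0 := by
    have h1 : ((n : ℤ) : ZMod 3) = 0 := by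
      rw [← d3]
      exact_mod_cast h3
    rw [← hv] at h1
    unfold ip7 at h1
    push_cast at h1
    have e7 : (7 : ZMod 3) = 1 := by decide
    have e4 : (4 : ZMod 3) = 1 := by decide
    have e8 : (8 : ZMod 3) = 2 := by decide
    rw [e7, e4, e8] at h1
    have e22 : (2 : ZMod 3) * 2 = 1 := by decide
    linear_combination h1 - (v 1 : ZMod 3) * (v 2 : ZMod 3) * e22
  have key := lines_one _ _ _ hne h0
  have l0 : (3 : ℤ) ∣ L3 0 v ↔ (v 0 : ZMod 3) + (v 1 : ZMod 3) = 0 := by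
    rw [d3]; simp [L3]
  have l1 : (3 : ℤ) ∣ L3 1 v ↔ (v 0 : ZMod 3) + (v 1 : ZMod 3) + (v 2 : ZMod 3) = 0 := by
    rw [d3]; simp [L3]
  have l2 : (3 : ℤ) ∣ L3 2 v ↔ (v 0 : ZMod 3) - (v 1 : ZMod 3) - (v 2 : ZMod 3) = 0 := by
    rw [d3]; simp [L3]
  have l3 : (3 : ℤ) ∣ L3 3 v ↔ (v 0 : ZMod 3) - (v 1 : ZMod 3) = 0 := by
    rw [d3]; simp [L3]
  unfold g3 id3
  simp only [l0, l1, l2, l3]
  exact key

theorem id3_neg (i : Fin 4) (v : V3) : id3 i (-v) = id3 i v := by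
  unfold id3
  have : L3 i (-v) = - L3 i v := by
    match i with
    | 0 => simp [L3]; ring
    | 1 => simp [L3]; ring
    | 2 => simp [L3]; ring
    | 3 => simp [L3]; ring
  simp only [this, dvd_neg]

theorem g3_neg (v : V3) : g3 (-v) = g3 v := by
  unfold g3
  simp only [id3_neg]

theorem g3_rot (v : V3) : g3 (rot7 v) = g3 v := by
  unfold g3
  simp only [id3_rot]
  simp only [Matrix.cons_val_zero, Matrix.cons_val_one, Matrix.cons_val]
  ring

theorem w7_id (n : ℕ) (v : V3) : w7 n v = (if 3 ∣ n then 2 else 1) * (id3 0 v - id3 3 v) := by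
  unfold w7 id3
  have a0 : L3 0 v = v 1 + v 0 := by simp [L3]; ring
  have a3 : (3 : ℤ) ∣ L3 3 v ↔ (3 : ℤ) ∣ v 1 - v 0 := by
    have : L3 3 v = -(v 1 - v 0) := by simp [L3]
    rw [this, dvd_neg]
  rw [a0]
  simp only [a3]

theorem nofix {n : ℕ} (hn : (3 ∣ n ∧ ¬ 9 ∣ n) ∨ n % 3 = 2) {v : V3} (hv : v ∈ vec7 (n : ℤ)) :
    rot7 v ≠ v := by
  intro h
  have h0 : - v 0 = v 0 := congrFun h 0
  have h2 : - v 2 = v 2 := congrFun h 2
  have e0 : v 0 = 0 := by omega
  have e2 : v 2 = 0 := by omega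
  rw [mem7] at hv
  unfold ip7 at hv
  rw [e0, e2] at hv
  have h4 : 4 * (v 1 * v 1) = (n : ℤ) := by linarith
  have hm : v 1 % 3 = 0 ∨ v 1 % 3 = 1 ∨ v 1 % 3 = 2 := by omega
  rcases hn with ⟨h3, h9⟩ | h3
  · rcases hm with h | h | h
    · obtain ⟨k, hk⟩ : ∃ k, v 1 = 3 * k := ⟨v 1 / 3, by omega⟩
      rw [hk] at h4
      apply h9
      have : ((9 : ℕ) : ℤ) ∣ (n : ℤ) := ⟨4 * (k * k), by rw [← h4]; push_cast; ring⟩
      exact_mod_cast this
    · obtain ⟨k, hk⟩ : ∃ k, v 1 = 3 * k + 1 := ⟨v 1 / 3, by omega⟩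
      rw [hk] at h4
      have : (n : ℤ) = 3 * (4 * (3 * (k * k) + 2 * k) + 1) + 1 := by rw [← h4]; ring
      omega
    · obtain ⟨k, hk⟩ : ∃ k, v 1 = 3 * k + 2 := ⟨v 1 / 3, by omega⟩
      rw [hk] at h4
      have : (n : ℤ) = 3 * (4 * (3 * (k * k) + 4 * k) + 5) + 1 := by rw [← h4]; ring
      omega
  · rcases hm with h | h | h
    · obtain ⟨k, hk⟩ : ∃ k, v 1 = 3 * k := ⟨v 1 / 3, by omega⟩
      rw [hk] at h4
      have : (n : ℤ) = 3 * (12 * (k * k)) := by rw [← h4]; ring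
      omega
    · obtain ⟨k, hk⟩ : ∃ k, v 1 = 3 * k + 1 := ⟨v 1 / 3, by omega⟩
      rw [hk] at h4
      have : (n : ℤ) = 3 * (4 * (3 * (k * k) + 2 * k) + 1) + 1 := by rw [← h4]; ring
      omega
    · obtain ⟨k, hk⟩ : ∃ k, v 1 = 3 * k + 2 := ⟨v 1 / 3, by omega⟩
      rw [hk] at h4
      have : (n : ℤ) = 3 * (4 * (3 * (k * k) + 4 * k) + 5) + 1 := by rw [← h4]; ring
      omega

/-- the common part of ORT3 and ORT21 -/
theorem ort_three (X : S_X7) {n : ℕ} (hn : Fn n) (h3 : 3 ∣ n) : ∃ x : ℕ → ℤ,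
    (∀ A ∈ pd n, P7 A n = x A ^ 2) ∧
    (2 : ℤ) ^ ((n.primeFactors.erase 7).card + 2) ∣ (vec7 (n : ℤ)).card + ∑ A ∈ pd n, x A := by
  obtain ⟨F, H⟩ := exists_SF hn
  have h9 : ¬ 9 ∣ n := by
    have := sqf_of hn (p := 3) (by norm_num) (by norm_num)
    norm_num at this
    exact this
  refine ⟨fun A => ∑ v ∈ vec7 (n : ℤ), w7 n v * FA F A v, ?_, ?_⟩
  · intro A hA
    exact P7_sq H (pd_dvd hA).1 (pd_dvd hA).2
  · rw [step X hn H (W := fun v => w7 n v) (g := g3)]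
    · exact gen_ort hn H (fun v hv => one_line h3 h9 (mem7.1 hv)) (fun v _ => g3_neg v)
        (fun v _ => g3_rot v) (fun v hv => nofix (Or.inl ⟨h3, h9⟩) hv)
    · intro v _
      show 2 + w7 n v + w7 n (rot7 v) = 2 * g3 v
      rw [w7_id, w7_id, if_pos h3, id3_rot, id3_rot]
      unfold g3
      simp only [Matrix.cons_val_zero, Matrix.cons_val]
      ring

theorem i7_nd {n : ℕ} (h : I7 n) : ¬ 7 ∣ n := by
  unfold I7 at h
  omega

/-- **ORT3** -/
theorem s_ORT3 (X : S_X7) : S_ORT3 := by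
  intro n hn h3 h7
  obtain ⟨x, h1, h2⟩ := ort_three X hn h3
  refine ⟨x, h1, ?_⟩
  rw [erase_eq_of_notMem (fun h => i7_nd h7 (Nat.dvd_of_mem_primeFactors h))] at h2
  exact h2

/-- **ORT21** -/
theorem s_ORT21 (X : S_X7) : S_ORT21 := by
  intro n hn h21
  have h3 : 3 ∣ n := (by norm_num : 3 ∣ 21).trans h21
  have h7 : 7 ∣ n := (by norm_num : 7 ∣ 21).trans h21
  have hn0 : n ≠ 0 := by
    rcases hn with ⟨hs, -⟩ | ⟨M, hM, hs, -⟩
    · exact hs.ne_zero
    · have := hs.ne_zero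
      omega
  obtain ⟨x, h1, h2⟩ := ort_three X hn h3
  refine ⟨x, h1, ?_⟩
  have hm : 7 ∈ n.primeFactors := Nat.mem_primeFactors.2 ⟨by norm_num, h7, hn0⟩
  have hc : (n.primeFactors.erase 7).card + 2 = n.primeFactors.card + 1 := by
    have h3 := card_erase_add_one hm
    omega
  rw [hc] at h2
  exact h2

/-! ### the weights for `n = 2` modulo `3` -/

/-- the symmetrised weight -/
def gn (v : V3) : ℤ := id3 0 v * (1 + oo v * m3 0 v) + id3 2 v * (1 + oo v * m3 2 v)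

theorem wn_id (v : V3) : wn v = 2 * (id3 0 v * (oo v * m3 0 v)) := by
  unfold wn id3 m3 oo
  have e : L3 0 v = v 1 + v 0 := by simp [L3]; ring
  rw [e]
  simp only [MM]
  split_ifs <;> ring

theorem gn_rot (v : V3) : gn (rot7 v) = gn v := by
  unfold gn
  rw [id3_rot, id3_rot, m3_rot, m3_rot, oo_rot]
  simp only [Matrix.cons_val_zero, Matrix.cons_val]
  ring

theorem gn_neg (v : V3) : gn (-v) = gn v := by
  unfold gn
  rw [id3_neg, id3_neg]
  have e1 : ∀ i, m3 i (-v) = - m3 i v := by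
    intro i
    unfold m3
    have : MM i (-v) = - MM i v := by
      match i with
      | 0 => simp [MM]; ring
      | 1 => simp [MM]
      | 2 => simp [MM]
      | 3 => simp [MM]; ring
    rw [this, Pool.Agent.N218.P21G.jac3_neg]
  have e2 : oo (-v) = - oo v := Pool.Agent.N970.RQ.oo_neg v
  rw [e1, e1, e2]
  ring

theorem m3_sq {n : ℕ} (hn : n % 3 = 2) {v : V3} (hv : ip7 v v = n) {i : Fin 4}
    (h : (3 : ℤ) ∣ L3 i v) : m3 i v = 1 ∨ m3 i v = -1 := by
  have h1 := m3_mul i h h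
  have h0 : jacobiSym (n : ℤ) 3 = -1 := by
    rw [jacobiSym.mod_left]
    have : (n : ℤ) % (3 : ℕ) = 2 := by push_cast; omega
    rw [this]
    norm_num
  rw [hv, h0] at h1
  have h2 : (m3 i v - 1) * (m3 i v + 1) = 0 := by linarith
  rcases mul_eq_zero.1 h2 with h3 | h3
  · left; linarith
  · right; linarith

theorem oo_pm {n : ℕ} (h7 : I7 n) {v : V3} (hv : ip7 v v = n) : oo v = 1 ∨ oo v = -1 := by
  have h1 := oo_mul v v
  have h2 : jacobiSym (ip7 v v) 7 = 1 := by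
    rw [hv, jacobiSym.mod_left]
    unfold I7 at h7
    rcases h7 with h | h | h
    · have : (n : ℤ) % (7 : ℕ) = 1 := by push_cast; omega
      rw [this]; norm_num
    · have : (n : ℤ) % (7 : ℕ) = 2 := by push_cast; omega
      rw [this]; norm_num
    · have : (n : ℤ) % (7 : ℕ) = 4 := by push_cast; omega
      rw [this]; norm_num
  rw [h2] at h1
  have h3 : (oo v - 1) * (oo v + 1) = 0 := by linarith
  rcases mul_eq_zero.1 h3 with h4 | h4
  · left; linarith
  · right; linarith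

theorem gn_val {n : ℕ} (hn : n % 3 = 2) (h7 : I7 n) {v : V3} (hv : ip7 v v = n) :
    gn v = 0 ∨ gn v = 2 := by
  have ho := oo_pm h7 hv
  unfold gn id3
  by_cases h0 : (3 : ℤ) ∣ L3 0 v <;> by_cases h2 : (3 : ℤ) ∣ L3 2 v
  · have e : m3 2 v = - m3 0 v := by
      unfold m3
      rw [← Pool.Agent.N218.P21G.jac3_neg]
      apply Pool.Agent.N218.P21G.jac3_congr
      simp only [MM]
      simp only [L3] at h0 h2
      omega
    rw [if_pos h0, if_pos h2, e]
    right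
    ring
  · rw [if_pos h0, if_neg h2]
    rcases m3_sq hn hv h0 with h | h <;> rcases ho with h' | h' <;> rw [h, h'] <;> norm_num
  · rw [if_neg h0, if_pos h2]
    rcases m3_sq hn hv h2 with h | h <;> rcases ho with h' | h' <;> rw [h, h'] <;> norm_num
  · rw [if_neg h0, if_neg h2]
    left
    ring

/-- **ORTN** -/
theorem s_ORTN (X : S_X7) : S_ORTN := by
  intro n ⟨hn, h3, h7⟩
  obtain ⟨F, H⟩ := exists_SF hn
  refine ⟨fun A => ∑ v ∈ vec7 (n : ℤ), w7 n v * FA F A v,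
    fun A => ∑ v ∈ vec7 (n : ℤ), wn v * FA F A v, ?_, ?_⟩
  · intro A hA
    exact ⟨P7_sq H (pd_dvd hA).1 (pd_dvd hA).2, N7_sq H (pd_dvd hA).1 (pd_dvd hA).2⟩
  · have e : ∑ A ∈ pd n, (∑ v ∈ vec7 (n : ℤ), w7 n v * FA F A v +
        ∑ v ∈ vec7 (n : ℤ), wn v * FA F A v) =
        ∑ A ∈ pd n, ∑ v ∈ vec7 (n : ℤ), (w7 n v + wn v) * FA F A v := by
      refine sum_congr rfl fun A _ => ?_
      rw [← sum_add_distrib]
      exact sum_congr rfl fun v _ => by ring
    rw [e, step X hn H (W := fun v => w7 n v + wn v) (g := gn)]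
    · have := gen_ort hn H (fun v hv => gn_val h3 h7 (mem7.1 hv)) (fun v _ => gn_neg v)
        (fun v _ => gn_rot v) (fun v hv => nofix (Or.inr h3) hv)
      rwa [erase_eq_of_notMem (fun h => i7_nd h7 (Nat.dvd_of_mem_primeFactors h))] at this
    · intro v hv
      show 2 + (w7 n v + wn v) + (w7 n (rot7 v) + wn (rot7 v)) = 2 * gn v
      have h4 : ¬ 3 ∣ n := by omega
      have h5 := sum_id3 h3 hv
      rw [Fin.sum_univ_four] at h5
      rw [w7_id, w7_id, if_neg h4, wn_id, wn_id, id3_rot, id3_rot, m3_rot, oo_rot]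
      unfold gn
      simp only [Matrix.cons_val_zero, Matrix.cons_val]
      linear_combination -h5

end Pool.Agent.N970.P21G
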