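import Pool.Agent.N970.RQ.Bil7b
import Pool.Agent.N877.P21G.Defs2

/-!
# RELN: the pairs with a common isotropic line modulo `3`, given residues modulo `3` and `7`
-/

set_option autoImplicit false

namespace Pool.Agent.N970.P21G

open Finset
open Pool.Agent.N969.P15 (V3)
open Pool.Agent.N969.RQ (ip7 vec7 c7)
open Pool.Agent.N877.P21G (cn wn S_RELN)
open Pool.Agent.N970.RQ (rot7 wot7 rot7_rot7 wot7_wot7 sim_rot7 sim_wot7 oo oo_mul oo_rot oo_wot
  oo_neg L3 L3_rot L3_wot cl cl_eq sum_cl cs7 ip7_eq ipn7 ips7 mem7n)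

/-! ### sums over the vectors -/

theorem sum_rot (n : ℕ) (f : V3 → ℤ) : ∑ v ∈ vec7 (n : ℤ), f (rot7 v) = ∑ v ∈ vec7 (n : ℤ), f v := by
  refine sum_nbij' rot7 rot7 ?_ ?_ (fun v _ => rot7_rot7 v) (fun v _ => rot7_rot7 v)
    (fun _ _ => rfl)
  · intro v hv
    rw [mem7] at hv ⊢
    rw [sim_rot7.iso, hv]; ring
  · intro v hv
    rw [mem7] at hv ⊢
    rw [sim_rot7.iso, hv]; ring

theorem sum_wot (n : ℕ) (f : V3 → ℤ) : ∑ v ∈ vec7 (n : ℤ), f (wot7 v) = ∑ v ∈ vec7 (n : ℤ), f v := by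
  refine sum_nbij' wot7 wot7 ?_ ?_ (fun v _ => wot7_wot7 v) (fun v _ => wot7_wot7 v)
    (fun _ _ => rfl)
  · intro v hv
    rw [mem7] at hv ⊢
    rw [sim_wot7.iso, hv]; ring
  · intro v hv
    rw [mem7] at hv ⊢
    rw [sim_wot7.iso, hv]; ring

theorem sum_neg7 (n : ℕ) (f : V3 → ℤ) : ∑ v ∈ vec7 (n : ℤ), f (-v) = ∑ v ∈ vec7 (n : ℤ), f v := by
  refine sum_nbij' (fun v => -v) (fun v => -v) ?_ ?_ (fun v _ => neg_neg v) (fun v _ => neg_neg v)
    (fun _ _ => rfl)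
  · intro v hv
    exact mem7n hv
  · intro v hv
    exact mem7n hv

/-- the form giving the orientation along a line -/
def k3 (i : Fin 4) (v : V3) : ℤ := ![v 1 + v 2, v 1, v 1, v 1 + v 2] i

/-- the orientation along a line -/
def mm (i : Fin 4) (v : V3) : ℤ := jacobiSym (k3 i v) 3

/-- the indicator of a line -/
def li (i : Fin 4) (v : V3) : ℤ := if (3 : ℤ) ∣ L3 i v then 1 else 0

theorem jm3 {a b : ℤ} (h : (3 : ℤ) ∣ a - b) : jacobiSym a 3 = jacobiSym b 3 := by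
  apply jacobiSym.mod_left'
  omega

theorem jneg3 (a : ℤ) : jacobiSym (-a) 3 = - jacobiSym a 3 := by
  have e : -a = (-1) * a := by ring
  rw [e, jacobiSym.mul_left, show jacobiSym (-1) 3 = -1 by norm_num]
  ring

theorem k3_neg (i : Fin 4) (v : V3) : k3 i (-v) = - k3 i v := by
  match i with
  | 0 => simp [k3]; ring
  | 1 => simp [k3]
  | 2 => simp [k3]
  | 3 => simp [k3]; ring

theorem mm_neg (i : Fin 4) (v : V3) : mm i (-v) = - mm i v := by
  unfold mm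
  rw [k3_neg, jneg3]

theorem L3_neg (i : Fin 4) (v : V3) : L3 i (-v) = - L3 i v := by
  match i with
  | 0 => simp [L3]; ring
  | 1 => simp [L3]; ring
  | 2 => simp [L3]; ring
  | 3 => simp [L3]; ring

theorem li_neg (i : Fin 4) (v : V3) : li i (-v) = li i v := by
  unfold li
  rw [L3_neg]
  simp only [dvd_neg]

theorem k3_rot (i : Fin 4) (v : V3) : k3 i (rot7 v) = k3 (![2, 3, 0, 1] i) v := by
  match i with
  | 0 => simp [k3, rot7]
  | 1 => simp [k3, rot7]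
  | 2 => simp [k3, rot7]
  | 3 => simp [k3, rot7]

theorem k3_wot (i : Fin 4) (v : V3) : k3 i (wot7 v) = - k3 (![3, 2, 1, 0] i) v := by
  match i with
  | 0 => simp [k3, wot7]; ring
  | 1 => simp [k3, wot7]
  | 2 => simp [k3, wot7]
  | 3 => simp [k3, wot7]; ring

theorem li_rot (i : Fin 4) (v : V3) : li i (rot7 v) = li (![2, 3, 0, 1] i) v := by
  unfold li
  simp only [L3_rot]

theorem li_wot (i : Fin 4) (v : V3) : li i (wot7 v) = li (![3, 2, 1, 0] i) v := by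
  unfold li
  simp only [L3_wot]

/-- the inner product of two vectors orthogonal to a line -/
theorem ip_line {i : Fin 4} {v w : V3} (hv : (3 : ℤ) ∣ L3 i v) (hw : (3 : ℤ) ∣ L3 i w) :
    (3 : ℤ) ∣ ip7 v w + k3 i v * k3 i w := by
  match i with
  | 0 =>
    simp [L3] at hv hw
    obtain ⟨a, ha⟩ := hv
    obtain ⟨b, hb⟩ := hw
    have e1 : v 0 = 3 * a - v 1 := by linarith
    have e2 : w 0 = 3 * b - w 1 := by linarith
    show (3 : ℤ) ∣ ip7 v w + (v 1 + v 2) * (w 1 + w 2)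
    unfold ip7
    rw [e1, e2]
    exact ⟨7 * (3 * a * b - a * w 1 - b * v 1) + 4 * (v 1 * w 1) + 3 * (v 2 * w 2) +
      (v 1 * w 2 + v 2 * w 1), by ring⟩
  | 1 =>
    simp [L3] at hv hw
    obtain ⟨a, ha⟩ := hv
    obtain ⟨b, hb⟩ := hw
    have e1 : v 0 = 3 * a - (v 1 + v 2) := by linarith
    have e2 : w 0 = 3 * b - (w 1 + w 2) := by linarith
    show (3 : ℤ) ∣ ip7 v w + v 1 * w 1
    unfold ip7
    rw [e1, e2]
    exact ⟨7 * (3 * a * b - a * (w 1 + w 2) - b * (v 1 + v 2)) + 4 * (v 1 * w 1) +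
      5 * (v 2 * w 2) + 3 * (v 1 * w 2 + v 2 * w 1), by ring⟩
  | 2 =>
    simp [L3] at hv hw
    obtain ⟨a, ha⟩ := hv
    obtain ⟨b, hb⟩ := hw
    have e1 : v 0 = 3 * a + (v 1 + v 2) := by linarith
    have e2 : w 0 = 3 * b + (w 1 + w 2) := by linarith
    show (3 : ℤ) ∣ ip7 v w + v 1 * w 1
    unfold ip7
    rw [e1, e2]
    exact ⟨7 * (3 * a * b + a * (w 1 + w 2) + b * (v 1 + v 2)) + 4 * (v 1 * w 1) +
      5 * (v 2 * w 2) + 3 * (v 1 * w 2 + v 2 * w 1), by ring⟩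
  | 3 =>
    simp [L3] at hv hw
    obtain ⟨a, ha⟩ := hv
    obtain ⟨b, hb⟩ := hw
    have e1 : v 0 = 3 * a + v 1 := by linarith
    have e2 : w 0 = 3 * b + w 1 := by linarith
    show (3 : ℤ) ∣ ip7 v w + (v 1 + v 2) * (w 1 + w 2)
    unfold ip7
    rw [e1, e2]
    exact ⟨7 * (3 * a * b + a * w 1 + b * v 1) + 4 * (v 1 * w 1) + 3 * (v 2 * w 2) +
      (v 1 * w 2 + v 2 * w 1), by ring⟩

/-- the product of the orientations -/
theorem mm_mul {i : Fin 4} {v w : V3} (hv : (3 : ℤ) ∣ L3 i v) (hw : (3 : ℤ) ∣ L3 i w) :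
    mm i v * mm i w = - jacobiSym (ip7 v w) 3 := by
  unfold mm
  rw [← jacobiSym.mul_left, ← jneg3]
  apply jm3
  have := ip_line hv hw
  have e : k3 i v * k3 i w - -ip7 v w = ip7 v w + k3 i v * k3 i w := by ring
  rw [e]
  exact this

/-- the number of lines orthogonal to a vector -/
theorem sum_li {n : ℕ} (h : n % 3 = 2) {v : V3} (hv : ip7 v v = n) : ∑ i, li i v = 2 := by
  have e1 := cl_eq h h hv hv
  rw [hv, if_pos ⟨0, by ring⟩, if_pos (fun i => ⟨0, by ring⟩)] at e1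
  have e2 : cl v v = ∑ i, li i v := by
    unfold cl li
    refine sum_congr rfl fun i _ => ?_
    split_ifs <;> norm_num
  rw [← e2, e1]
  norm_num

/-- a sum over the vectors orthogonal to a line -/
noncomputable def Gs (i : Fin 4) (n : ℕ) (f : Fin 4 → V3 → ℤ) : ℤ := ∑ v ∈ vec7 (n : ℤ), li i v * f i v

theorem Gs_one (n : ℕ) (i : Fin 4) : Gs i n (fun _ _ => 1) = Gs 0 n (fun _ _ => 1) := by
  have r : ∀ i : Fin 4, Gs (![2, 3, 0, 1] i) n (fun _ _ => 1) = Gs i n (fun _ _ => 1) := by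
    intro i
    unfold Gs
    rw [← sum_rot n (fun v => li i v * 1)]
    exact sum_congr rfl fun v _ => by rw [li_rot]
  have w : ∀ i : Fin 4, Gs (![3, 2, 1, 0] i) n (fun _ _ => 1) = Gs i n (fun _ _ => 1) := by
    intro i
    unfold Gs
    rw [← sum_wot n (fun v => li i v * 1)]
    exact sum_congr rfl fun v _ => by rw [li_wot]
  have r0 := r 0
  have r1 := r 1
  have w0 := w 0
  have w1 := w 1
  simp only [Matrix.cons_val_zero, Matrix.cons_val_one] at r0 r1 w0 w1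
  match i with
  | 0 => rfl
  | 1 => rw [← r1, w0]
  | 2 => exact r0
  | 3 => exact w0

theorem Gs_P (n : ℕ) (i : Fin 4) : Gs i n (fun i v => oo v * mm i v) =
    Gs 0 n (fun i v => oo v * mm i v) := by
  have r : ∀ i : Fin 4, Gs (![2, 3, 0, 1] i) n (fun i v => oo v * mm i v) =
      Gs i n (fun i v => oo v * mm i v) := by
    intro i
    unfold Gs
    rw [← sum_rot n (fun v => li i v * (oo v * mm i v))]
    refine sum_congr rfl fun v _ => ?_
    rw [li_rot, oo_rot]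
    unfold mm
    rw [k3_rot]
  have w : ∀ i : Fin 4, Gs (![3, 2, 1, 0] i) n (fun i v => oo v * mm i v) =
      Gs i n (fun i v => oo v * mm i v) := by
    intro i
    unfold Gs
    rw [← sum_wot n (fun v => li i v * (oo v * mm i v))]
    refine sum_congr rfl fun v _ => ?_
    rw [li_wot, oo_wot]
    unfold mm
    rw [k3_wot, jneg3]
    ring
  have r0 := r 0
  have r1 := r 1
  have w0 := w 0
  have w1 := w 1
  simp only [Matrix.cons_val_zero, Matrix.cons_val_one] at r0 r1 w0 w1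
  match i with
  | 0 => rfl
  | 1 => rw [← r1, w0]
  | 2 => exact r0
  | 3 => exact w0

theorem Gs_odd (n : ℕ) (i : Fin 4) (f : Fin 4 → V3 → ℤ) (hf : ∀ v, f i (-v) = - f i v) :
    Gs i n f = 0 := by
  unfold Gs
  have h1 := sum_neg7 n (fun v => li i v * f i v)
  have h2 : ∑ v ∈ vec7 (n : ℤ), li i (-v) * f i (-v) = - ∑ v ∈ vec7 (n : ℤ), li i v * f i v := by
    rw [← sum_neg_distrib]
    refine sum_congr rfl fun v _ => ?_
    rw [li_neg, hf]
    ring
  rw [h2] at h1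
  omega

theorem cn_eq (n : ℕ) : cn n = 2 * Gs 0 n (fun i v => oo v * mm i v) := by
  unfold cn Gs
  rw [mul_sum]
  refine sum_congr rfl fun v _ => ?_
  unfold wn li
  have e : L3 0 v = v 1 + v 0 := by simp [L3]; ring
  rw [e]
  have e2 : mm 0 v = jacobiSym (v 1 + v 2) 3 := rfl
  have e3 : oo v = jacobiSym (2 * v 1 + v 2) 7 := rfl
  beta_reduce
  rw [e2, e3]
  split_ifs <;> ring

theorem Gs_mul (n1 n2 : ℕ) (i : Fin 4) (f : Fin 4 → V3 → ℤ) : Gs i n1 f * Gs i n2 f =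
    ∑ q ∈ vec7 (n1 : ℤ) ×ˢ vec7 (n2 : ℤ), li i q.1 * f i q.1 * (li i q.2 * f i q.2) := by
  unfold Gs
  rw [sum_mul_sum, sum_product]

theorem four_one {n : ℕ} (h : n % 3 = 2) : 2 * Gs 0 n (fun _ _ => 1) = (vec7 (n : ℤ)).card := by
  have e1 : ∑ i : Fin 4, Gs i n (fun _ _ => 1) = 2 * (vec7 (n : ℤ)).card := by
    unfold Gs
    rw [sum_comm]
    have : ∀ v ∈ vec7 (n : ℤ), ∑ i : Fin 4, li i v * 1 = 2 := by
      intro v hv
      rw [mem7] at hv
      simp only [mul_one]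
      exact sum_li h hv
    rw [sum_congr rfl this, sum_const, nsmul_eq_mul, mul_comm]
  rw [Fin.sum_univ_four, Gs_one n 1, Gs_one n 2, Gs_one n 3] at e1
  linarith

/-- the residues of a square root -/
theorem ind7 {b r x : ℤ} (hr : 0 < r) (hr' : r < 7) (h1 : (7 : ℤ) ∣ b ^ 2 - x)
    (h2 : (7 : ℤ) ∣ r ^ 2 - x) :
    2 * (if b % 7 = r then (1 : ℤ) else 0) = 1 + jacobiSym r 7 * jacobiSym b 7 := by
  have h3 : (7 : ℤ) ∣ (b - r) * (b + r) := by
    have := dvd_sub h1 h2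
    have e : b ^ 2 - x - (r ^ 2 - x) = (b - r) * (b + r) := by ring
    rwa [e] at this
  have hj : jacobiSym r 7 * jacobiSym r 7 = 1 := by
    interval_cases r <;> norm_num
  rcases Int.Prime.dvd_mul' (p := 7) (by norm_num) h3 with h | h
  · push_cast at h
    have e : jacobiSym b 7 = jacobiSym r 7 := by
      apply jacobiSym.mod_left'
      omega
    rw [if_pos (by omega), e, hj]
    norm_num
  · push_cast at h
    have e : jacobiSym b 7 = - jacobiSym r 7 := by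
      have e1 : -jacobiSym r 7 = jacobiSym (-r) 7 := by
        have e2 : -r = (-1) * r := by ring
        rw [e2, jacobiSym.mul_left, show jacobiSym (-1) 7 = -1 by norm_num]
        ring
      rw [e1]
      apply jacobiSym.mod_left'
      omega
    rw [if_neg (by omega), e]
    linear_combination hj

theorem ind3 {b r x : ℤ} (hr : 0 < r) (hr' : r < 3) (h1 : (3 : ℤ) ∣ b ^ 2 - x)
    (h2 : (3 : ℤ) ∣ r ^ 2 - x) :
    2 * (if b % 3 = r then (1 : ℤ) else 0) = 1 + jacobiSym r 3 * jacobiSym b 3 := by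
  have h3 : (3 : ℤ) ∣ (b - r) * (b + r) := by
    have := dvd_sub h1 h2
    have e : b ^ 2 - x - (r ^ 2 - x) = (b - r) * (b + r) := by ring
    rwa [e] at this
  have hj : jacobiSym r 3 * jacobiSym r 3 = 1 := by
    interval_cases r <;> norm_num
  rcases Int.Prime.dvd_mul' (p := 3) (by norm_num) h3 with h | h
  · push_cast at h
    have e : jacobiSym b 3 = jacobiSym r 3 := jm3 (by omega)
    rw [if_pos (by omega), e, hj]
    norm_num
  · push_cast at h
    have e : jacobiSym b 3 = - jacobiSym r 3 := by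
      rw [← jneg3]
      exact jm3 (by omega)
    rw [if_neg (by omega), e]
    linear_combination hj

/-- **RELN** -/
theorem t_RELN : S_RELN := by
  intro n1 n2 h1 h2 h71 h72 r7 r3 hr7 hr7' hd7 hr3 hr3' hd3 B hB hB0
  -- the sum over the pairs
  have s1 : ∑ b ∈ (Ioo (-B) B).filter (fun b : ℤ => b % 7 = r7 ∧ b % 3 = r3),
      ((c7 n1 b n2 : ℤ) + Pool.Agent.N877.P21G.cp3 n1 b n2) =
      ∑ q ∈ vec7 (n1 : ℤ) ×ˢ vec7 (n2 : ℤ), cl q.1 q.2 *
        (if ip7 q.1 q.2 % 7 = r7 ∧ ip7 q.1 q.2 % 3 = r3 then (1 : ℤ) else 0) := by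
    have e1 : ∀ b ∈ (Ioo (-B) B).filter (fun b : ℤ => b % 7 = r7 ∧ b % 3 = r3),
        ((c7 n1 b n2 : ℤ) + Pool.Agent.N877.P21G.cp3 n1 b n2) =
        ∑ q ∈ (vec7 (n1 : ℤ) ×ˢ vec7 (n2 : ℤ)).filter (fun q => ip7 q.1 q.2 = b), cl q.1 q.2 *
          (if ip7 q.1 q.2 % 7 = r7 ∧ ip7 q.1 q.2 % 3 = r3 then (1 : ℤ) else 0) := by
      intro b hb
      rw [mem_filter] at hb
      have e2 : ∀ q ∈ (vec7 (n1 : ℤ) ×ˢ vec7 (n2 : ℤ)).filter (fun q => ip7 q.1 q.2 = b),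
          cl q.1 q.2 * (if ip7 q.1 q.2 % 7 = r7 ∧ ip7 q.1 q.2 % 3 = r3 then (1 : ℤ) else 0) =
          cl q.1 q.2 := by
        intro q hq
        rw [mem_filter] at hq
        rw [hq.2, if_pos hb.2, mul_one]
      rw [sum_congr rfl e2, sum_cl h1 h2, if_pos]
      have e3 : (n1 : ℤ) * n2 - b ^ 2 = -((b - r3) * (b + r3)) - (r3 ^ 2 - n1 * n2) := by ring
      rw [e3]
      refine dvd_sub (dvd_neg.2 (Dvd.dvd.mul_right ?_ _)) hd3
      have := hb.2.2
      omega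
    rw [sum_congr rfl e1]
    have e4 : ∑ q ∈ vec7 (n1 : ℤ) ×ˢ vec7 (n2 : ℤ), cl q.1 q.2 *
        (if ip7 q.1 q.2 % 7 = r7 ∧ ip7 q.1 q.2 % 3 = r3 then (1 : ℤ) else 0) =
        ∑ q ∈ (vec7 (n1 : ℤ) ×ˢ vec7 (n2 : ℤ)).filter (fun q => ip7 q.1 q.2 ∈
          (Ioo (-B) B).filter (fun b : ℤ => b % 7 = r7 ∧ b % 3 = r3)), cl q.1 q.2 *
        (if ip7 q.1 q.2 % 7 = r7 ∧ ip7 q.1 q.2 % 3 = r3 then (1 : ℤ) else 0) := by
      symm
      apply sum_subset (filter_subset _ _)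
      intro q hq hq'
      rw [mem_product, mem7, mem7] at hq
      rw [mem_filter, mem_product, mem7, mem7] at hq'
      rw [if_neg, mul_zero]
      intro hc
      apply hq'
      refine ⟨hq, ?_⟩
      rw [mem_filter, mem_Ioo]
      refine ⟨abs_lt.1 ?_, hc⟩
      apply abs_lt_of_sq_lt_sq _ hB0.le
      refine lt_of_le_of_lt ?_ hB
      have := cs7 q.1 q.2
      rw [← ip7_eq, ← ip7_eq, ← ip7_eq, hq.1, hq.2] at this
      exact this
    rw [e4, ← sum_fiberwise_of_maps_to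
      (t := (Ioo (-B) B).filter (fun b : ℤ => b % 7 = r7 ∧ b % 3 = r3))
      (g := fun q : V3 × V3 => ip7 q.1 q.2) (fun q hq => (mem_filter.1 hq).2)]
    refine sum_congr rfl fun b hb => ?_
    rw [filter_filter]
    refine sum_congr (filter_congr fun q _ => ?_) (fun _ _ => rfl)
    exact ⟨fun h => ⟨by rw [h]; exact hb, h⟩, fun h => h.2⟩
  rw [s1]
  -- the indicator
  have s2 : 4 * ∑ q ∈ vec7 (n1 : ℤ) ×ˢ vec7 (n2 : ℤ), cl q.1 q.2 *
        (if ip7 q.1 q.2 % 7 = r7 ∧ ip7 q.1 q.2 % 3 = r3 then (1 : ℤ) else 0) =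
      ∑ i : Fin 4, (Gs i n1 (fun _ _ => 1) * Gs i n2 (fun _ _ => 1) +
        jacobiSym r7 7 * (Gs i n1 (fun _ v => oo v) * Gs i n2 (fun _ v => oo v)) -
        jacobiSym r3 3 * (Gs i n1 (fun i v => mm i v) * Gs i n2 (fun i v => mm i v)) -
        jacobiSym r3 3 * jacobiSym r7 7 *
          (Gs i n1 (fun i v => oo v * mm i v) * Gs i n2 (fun i v => oo v * mm i v))) := by
    simp only [Gs_mul]
    have e9 : ∀ i : Fin 4, (∑ q ∈ vec7 (n1 : ℤ) ×ˢ vec7 (n2 : ℤ),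
        li i q.1 * 1 * (li i q.2 * 1)) +
        jacobiSym r7 7 * (∑ q ∈ vec7 (n1 : ℤ) ×ˢ vec7 (n2 : ℤ),
          li i q.1 * oo q.1 * (li i q.2 * oo q.2)) -
        jacobiSym r3 3 * (∑ q ∈ vec7 (n1 : ℤ) ×ˢ vec7 (n2 : ℤ),
          li i q.1 * mm i q.1 * (li i q.2 * mm i q.2)) -
        jacobiSym r3 3 * jacobiSym r7 7 * (∑ q ∈ vec7 (n1 : ℤ) ×ˢ vec7 (n2 : ℤ),
          li i q.1 * (oo q.1 * mm i q.1) * (li i q.2 * (oo q.2 * mm i q.2))) =
        ∑ q ∈ vec7 (n1 : ℤ) ×ˢ vec7 (n2 : ℤ), (li i q.1 * 1 * (li i q.2 * 1) +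
          jacobiSym r7 7 * (li i q.1 * oo q.1 * (li i q.2 * oo q.2)) -
          jacobiSym r3 3 * (li i q.1 * mm i q.1 * (li i q.2 * mm i q.2)) -
          jacobiSym r3 3 * jacobiSym r7 7 *
            (li i q.1 * (oo q.1 * mm i q.1) * (li i q.2 * (oo q.2 * mm i q.2)))) := by
      intro i
      rw [sum_sub_distrib, sum_sub_distrib, sum_add_distrib, mul_sum, mul_sum, mul_sum]
    rw [sum_congr rfl fun i _ => e9 i, sum_comm, mul_sum]
    refine sum_congr rfl fun q hq => ?_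
    obtain ⟨v, w⟩ := q
    rw [mem_product, mem7, mem7] at hq
    obtain ⟨hv, hw⟩ := hq
    simp only at hv hw ⊢
    unfold cl
    rw [sum_mul, mul_sum]
    refine sum_congr rfl fun i _ => ?_
    unfold li
    by_cases a : (3 : ℤ) ∣ L3 i v
    swap
    · rw [if_neg a]; ring
    by_cases b : (3 : ℤ) ∣ L3 i w
    swap
    · rw [if_neg b]; ring
    rw [if_pos a, if_pos b]
    have k7 : (7 : ℤ) ∣ ip7 v w ^ 2 - n1 * n2 := by
      have := Pool.Agent.N970.RQ.dvd28 v w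
      rw [hv, hw] at this
      have e : ip7 v w ^ 2 - (n1 : ℤ) * n2 = -(n1 * n2 - ip7 v w ^ 2) := by ring
      rw [e, dvd_neg]
      exact Dvd.dvd.trans (by norm_num) this
    have k3' : (3 : ℤ) ∣ ip7 v w ^ 2 - n1 * n2 := by
      have a1 := ip_line a a
      have a2 := ip_line b b
      have a3 := ip_line a b
      rw [hv] at a1
      rw [hw] at a2
      obtain ⟨x, hx⟩ := a1
      obtain ⟨y, hy⟩ := a2
      obtain ⟨z, hz⟩ := a3
      have e1 : (n1 : ℤ) = 3 * x - k3 i v * k3 i v := by linarith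
      have e2 : (n2 : ℤ) = 3 * y - k3 i w * k3 i w := by linarith
      have e3 : ip7 v w = 3 * z - k3 i v * k3 i w := by linarith
      rw [e1, e2, e3]
      exact ⟨3 * z ^ 2 - 2 * z * (k3 i v * k3 i w) - 3 * x * y + x * (k3 i w * k3 i w) +
        y * (k3 i v * k3 i v), by ring⟩
    have i7 := ind7 hr7 hr7' k7 hd7
    have i3 := ind3 hr3 hr3' k3' hd3
    have m1 := mm_mul a b
    have m2 := oo_mul v w
    have e0 : (if ip7 v w % 7 = r7 ∧ ip7 v w % 3 = r3 then (1 : ℤ) else 0) =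
        (if ip7 v w % 7 = r7 then 1 else 0) * (if ip7 v w % 3 = r3 then 1 else 0) := by
      by_cases a1 : ip7 v w % 7 = r7 <;> by_cases a2 : ip7 v w % 3 = r3 <;> simp [a1, a2]
    rw [e0]
    generalize (if ip7 v w % 7 = r7 then (1 : ℤ) else 0) = X at i7 ⊢
    generalize (if ip7 v w % 3 = r3 then (1 : ℤ) else 0) = Y at i3 ⊢
    have e1 : (4 : ℤ) * (1 * 1 * (X * Y)) = (2 * X) * (2 * Y) := by ring
    rw [e1, i7, i3]
    have e2 : jacobiSym (ip7 v w) 3 = -(mm i v * mm i w) := by rw [m1]; ring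
    rw [← m2, e2]
    ring
  have o1 : ∀ (i : Fin 4) (n : ℕ), Gs i n (fun _ v => oo v) = 0 := fun i n =>
    Gs_odd n i _ (fun v => oo_neg v)
  have o2 : ∀ (i : Fin 4) (n : ℕ), Gs i n (fun i v => mm i v) = 0 := fun i n =>
    Gs_odd n i _ (fun v => mm_neg i v)
  rw [s2]
  simp only [o1, o2]
  rw [Fin.sum_univ_four, Gs_one n1 1, Gs_one n1 2, Gs_one n1 3, Gs_one n2 1, Gs_one n2 2,
    Gs_one n2 3, Gs_P n1 1, Gs_P n1 2, Gs_P n1 3, Gs_P n2 1, Gs_P n2 2, Gs_P n2 3, cn_eq, cn_eq,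
    ← four_one h1, ← four_one h2]
  ring

end Pool.Agent.N970.P21G
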